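import Pool.Graph.R_seed8.R775.HS.Good

/-!
# The average of a local action of a compact group
-/

set_option autoImplicit false

open MeasureTheory Set Metric Filter Topology
open scoped ENNReal NNReal

namespace Pool.Agent.H751.HSF

open Pool.Agent.Y485.HS Pool.Agent.Y489.SP Pool.Agent.Y475.HS

/-- The average of a local action of a compact group. -/
theorem average {n : ℕ} {K : Type} [Group K] [TopologicalSpace K] [IsTopologicalGroup K]
    [CompactSpace K] {T : K → E n → E n} (hT : LocAct n K T) :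
    ∃ F : E n → E n, ContinuousOn F (BB n) ∧ (∀ x ∈ BB n, dist (F x) x ≤ 1 / 4) ∧
      (∀ k, ∀ x ∈ BB n, T k x ∈ BB n → F (T k x) = F x) ∧
      (∀ x ∈ BB n, (∀ k, T k x = x) → F x = x) ∧
      (∀ x ∈ BB n, ∀ i, (∀ k, T k x i = x i) → F x i = x i) ∧
      (∀ v ∈ BB n, ∀ w ∈ BB n, ∀ i, ∀ ε : ℝ, (∀ k, |T k v i - T k w i| ≤ ε) →
        |F v i - F w i| ≤ ε) := by
  let _ : MeasurableSpace K := borel K
  have _ : BorelSpace K := ⟨rfl⟩
  let μ : Measure K := Measure.haarMeasure ⊤
  have hμ1 : IsProbabilityMeasure μ := ⟨by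
    have := Measure.haarMeasure_self (K₀ := (⊤ : TopologicalSpace.PositiveCompacts K))
    simpa using this⟩
  let S : K → E n → E n := fun k x => T k⁻¹ x
  have hScont : ContinuousOn (fun q : K × E n => S q.1 q.2) (univ ×ˢ BB n) := by
    have hc : Continuous (fun q : K × E n => (q.1⁻¹, q.2)) := by fun_prop
    refine hT.cont.comp hc.continuousOn ?_
    rintro ⟨k, x⟩ ⟨-, hx⟩
    exact ⟨mem_univ _, hx⟩
  let Φ : C(K, C(BB n, E n)) := res S hScont
  have hint : Integrable (fun ω => Φ ω) μ :=
    Φ.continuous.integrable_of_hasCompactSupport (HasCompactSupport.of_compactSpace _)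
  have heval : ∀ x : BB n, ∫ ω, S ω x.1 ∂μ = (∫ ω, Φ ω ∂μ : C(BB n, E n)) x := by
    intro x
    have := (ContinuousMap.evalCLM ℝ x : C(BB n, E n) →L[ℝ] E n).integral_comp_comm hint
    exact this
  set F : E n → E n := fun x => ∫ k, S k x ∂μ with hF
  have hFc : ContinuousOn F (BB n) := by
    rw [continuousOn_iff_continuous_domRestrict]
    have : (BB n).domRestrict (fun x => ∫ ω, S ω x ∂μ) = (∫ ω, Φ ω ∂μ : C(BB n, E n)) := by
      ext1 x
      exact heval x
    rw [this]
    exact (∫ ω, Φ ω ∂μ : C(BB n, E n)).continuous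
  have hSc1 : ∀ x ∈ BB n, Continuous (fun k => S k x) := by
    intro x hx
    have hc : Continuous (fun k : K => (k, x)) := by fun_prop
    exact hScont.comp_continuous hc (fun k => ⟨mem_univ _, hx⟩)
  have hSint : ∀ x ∈ BB n, Integrable (fun k => S k x) μ := fun x hx =>
    (hSc1 x hx).integrable_of_hasCompactSupport (HasCompactSupport.of_compactSpace _)
  have hcoord : ∀ x ∈ BB n, ∀ i, F x i = ∫ k, S k x i ∂μ := by
    intro x hx i
    exact ((EuclideanSpace.proj i : E n →L[ℝ] ℝ).integral_comp_comm (hSint x hx)).symm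
  have hSinti : ∀ x ∈ BB n, ∀ i, Integrable (fun k => S k x i) μ := fun x hx i =>
    (EuclideanSpace.proj i : E n →L[ℝ] ℝ).integrable_comp (hSint x hx)
  refine ⟨F, hFc, ?_, ?_, ?_, ?_, ?_⟩
  · intro x hx
    have h1 : F x - x = ∫ k, (S k x - x) ∂μ := by
      rw [integral_sub (hSint x hx) (integrable_const _)]
      simp [hF]
    rw [dist_eq_norm, h1]
    have h2 := norm_integral_le_of_norm_le_const (μ := μ) (f := fun k => S k x - x) (C := 1 / 4)
      (Eventually.of_forall fun k => by
        have := hT.disp k⁻¹ x hx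
        rwa [dist_eq_norm] at this)
    simpa using h2
  · intro k x hx hkx
    have h1 : ∀ k' : K, S k' (T k x) = S (k⁻¹ * k') x := by
      intro k'
      show T k'⁻¹ (T k x) = T (k⁻¹ * k')⁻¹ x
      rw [← hT.mul _ _ x hx hkx]
      congr 1
      simp
    show ∫ k', S k' (T k x) ∂μ = ∫ k', S k' x ∂μ
    simp_rw [h1]
    exact integral_mul_left_eq_self (fun k' => S k' x) k⁻¹
  · intro x hx h
    have h1 : ∀ k : K, S k x = x := fun k => h k⁻¹
    show ∫ k, S k x ∂μ = x
    simp_rw [h1]
    simp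
  · intro x hx i h
    rw [hcoord x hx i]
    have h1 : ∀ k : K, S k x i = x i := fun k => h k⁻¹
    simp_rw [h1]
    simp
  · intro v hv w hw i ε h
    rw [hcoord v hv i, hcoord w hw i, ← integral_sub (hSinti v hv i) (hSinti w hw i)]
    have h2 := norm_integral_le_of_norm_le_const (μ := μ) (f := fun k => S k v i - S k w i)
      (C := ε) (Eventually.of_forall fun k => h k⁻¹)
    simpa using h2

end Pool.Agent.H751.HSF
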