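import Mathlib

/-!
# Images of pieces of coordinate planes are null sets
-/

set_option autoImplicit false

open MeasureTheory Set Metric Filter Topology
open scoped ENNReal NNReal

namespace Pool.Agent.H751.HSF

/-- Covering of a piece of a coordinate plane by small boxes. -/
theorem cover {n : ℕ} (A : Finset (Fin n)) (S : Set (EuclideanSpace ℝ (Fin n)))
    (hS : ∀ v ∈ S, ∀ j, |v j| ≤ 2) (hA : ∀ v ∈ S, ∀ w ∈ S, ∀ j, j ∉ A → v j = w j)
    (m : Fin n → ℕ) (hm : ∀ j, 0 < m j) :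
    ∃ (I : Finset (Fin n → ℤ)) (Q : (Fin n → ℤ) → Set (EuclideanSpace ℝ (Fin n))),
      I.card ≤ ∏ j ∈ A, (5 * m j) ∧ S ⊆ ⋃ t ∈ I, Q t ∧ (∀ t, Q t ⊆ S) ∧
      ∀ t, ∀ v ∈ Q t, ∀ w ∈ Q t, ∀ j, |v j - w j| ≤ 1 / m j := by
  classical
  have hm0 : ∀ j, (0 : ℝ) < m j := fun j => by exact_mod_cast hm j
  refine ⟨Fintype.piFinset fun j => if j ∈ A then Finset.Icc (-(2 * m j : ℤ)) (2 * m j) else {0},
    fun t => {v | v ∈ S ∧ ∀ j ∈ A, ⌊(m j : ℝ) * v j⌋ = t j}, ?_, ?_, fun t v hv => hv.1, ?_⟩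
  · rw [Fintype.card_piFinset]
    have h1 : ∀ j : Fin n, (if j ∈ A then Finset.Icc (-(2 * m j : ℤ)) (2 * m j) else {0}).card =
        if j ∈ A then 4 * m j + 1 else 1 := by
      intro j
      split_ifs with h
      · rw [Int.card_Icc]
        omega
      · rfl
    rw [Finset.prod_congr rfl fun j _ => h1 j, Finset.prod_ite_mem, Finset.univ_inter]
    refine Finset.prod_le_prod' fun j _ => ?_
    have := hm j
    omega
  · intro v hv
    rw [mem_iUnion₂]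
    refine ⟨fun j => if j ∈ A then ⌊(m j : ℝ) * v j⌋ else 0, ?_, hv, fun j hj => by simp [hj]⟩
    rw [Fintype.mem_piFinset]
    intro j
    have hj0 := hm0 j
    split_ifs with h
    · have h2 := abs_le.1 (hS v hv j)
      rw [Finset.mem_Icc]
      constructor
      · rw [Int.le_floor]
        push_cast
        nlinarith
      · have h3 : (⌊(m j : ℝ) * v j⌋ : ℝ) ≤ (m j : ℝ) * v j := Int.floor_le _
        have h4 : (⌊(m j : ℝ) * v j⌋ : ℝ) ≤ ((2 * m j : ℤ) : ℝ) := by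
          push_cast
          nlinarith
        exact_mod_cast h4
    · simp
  · intro t v hv w hw j
    have hj0 := hm0 j
    by_cases hj : j ∈ A
    · have e1 := hv.2 j hj
      have e2 := hw.2 j hj
      have e3 : ⌊(m j : ℝ) * v j⌋ = ⌊(m j : ℝ) * w j⌋ := by rw [e1, e2]
      have e4 := Int.abs_sub_lt_one_of_floor_eq_floor e3
      rw [← mul_sub, abs_mul, abs_of_pos hj0] at e4
      rw [le_div_iff₀ hj0, mul_comm]
      exact e4.le
    · rw [hA v hv.1 w hw.1 j hj, sub_self, abs_zero]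
      positivity

/-- A set with arbitrarily fine covers by sets with small images has a null image. -/
theorem null_image {n : ℕ} {ι : Type} [Fintype ι] (S : Set (EuclideanSpace ℝ (Fin n)))
    (f : EuclideanSpace ℝ (Fin n) → ι → ℝ)
    (h : ∀ η : ℝ, 0 < η → ∃ (N : ℕ) (Q : Fin N → Set (EuclideanSpace ℝ (Fin n)))
      (δ : Fin N → ι → ℝ), S ⊆ ⋃ i, Q i ∧ (∀ i l, 0 ≤ δ i l) ∧ ∑ i, ∏ l, δ i l ≤ η ∧
      ∀ i, ∀ v ∈ S ∩ Q i, ∀ w ∈ S ∩ Q i, ∀ l, |f v l - f w l| ≤ δ i l) :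
    volume (f '' S) = 0 := by
  classical
  have key : ∀ η : ℝ, 0 < η → volume (f '' S) ≤ ENNReal.ofReal η := by
    intro η hη
    obtain ⟨N, Q, δ, hSQ, hδ0, hsum, hδ⟩ := h η hη
    have h1 : ∀ i, volume (f '' (S ∩ Q i)) ≤ ENNReal.ofReal (∏ l, δ i l) := by
      intro i
      refine (Real.volume_pi_le_prod_diam _).trans ?_
      rw [ENNReal.ofReal_prod_of_nonneg fun l _ => hδ0 i l]
      refine Finset.prod_le_prod' fun l _ => ?_
      refine Metric.ediam_le ?_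
      rintro _ ⟨_, ⟨v, hv, rfl⟩, rfl⟩ _ ⟨_, ⟨w, hw, rfl⟩, rfl⟩
      rw [edist_dist, Real.dist_eq]
      exact ENNReal.ofReal_le_ofReal (hδ i v hv w hw l)
    have h2 : f '' S ⊆ ⋃ i, f '' (S ∩ Q i) := by
      rintro _ ⟨v, hv, rfl⟩
      obtain ⟨i, hi⟩ := mem_iUnion.1 (hSQ hv)
      exact mem_iUnion.2 ⟨i, v, ⟨hv, hi⟩, rfl⟩
    calc volume (f '' S) ≤ volume (⋃ i, f '' (S ∩ Q i)) := measure_mono h2
      _ ≤ ∑ i, volume (f '' (S ∩ Q i)) := measure_iUnion_fintype_le _ _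
      _ ≤ ∑ i, ENNReal.ofReal (∏ l, δ i l) := Finset.sum_le_sum fun i _ => h1 i
      _ = ENNReal.ofReal (∑ i, ∏ l, δ i l) :=
          (ENNReal.ofReal_sum_of_nonneg fun i _ => Finset.prod_nonneg fun l _ => hδ0 i l).symm
      _ ≤ ENNReal.ofReal η := ENNReal.ofReal_le_ofReal hsum
  have ht : Tendsto (fun k : ℕ => ENNReal.ofReal (1 / ((k : ℝ) + 1))) atTop (𝓝 0) := by
    simpa using ENNReal.tendsto_ofReal (tendsto_one_div_add_atTop_nhds_zero_nat (𝕜 := ℝ))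
  exact le_antisymm (ge_of_tendsto' ht fun k => key _ (by positivity)) bot_le

/-- Covers of a bounded piece of a coordinate plane by small boxes. -/
theorem box_cover {n : ℕ} (A : Finset (Fin n)) (S : Set (EuclideanSpace ℝ (Fin n)))
    (hS : ∀ v ∈ S, ∀ j, |v j| ≤ 2) (hA : ∀ v ∈ S, ∀ w ∈ S, ∀ j, j ∉ A → v j = w j)
    (σ : ℝ) (hσ0 : 0 < σ) (hσ1 : σ ≤ 1) :
    ∃ (N : ℕ) (Q : Fin N → Set (EuclideanSpace ℝ (Fin n))), S ⊆ ⋃ i, Q i ∧
      (N : ℝ) * σ ^ A.card ≤ 10 ^ A.card ∧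
      ∀ i, ∀ v ∈ S ∩ Q i, ∀ w ∈ S ∩ Q i, ∀ j, |v j - w j| ≤ σ := by
  classical
  obtain ⟨m, hm⟩ : ∃ m : ℕ, m = ⌈1 / σ⌉₊ := ⟨_, rfl⟩
  have hm1 : 1 / σ ≤ m := by
    rw [hm]
    exact Nat.le_ceil _
  have hmR : (0 : ℝ) < m := lt_of_lt_of_le (one_div_pos.2 hσ0) hm1
  have hm0 : 0 < m := by exact_mod_cast hmR
  have hns : (1 : ℝ) / m ≤ σ := by
    rw [div_le_iff₀ hσ0] at hm1
    rw [div_le_iff₀ hmR, mul_comm]
    exact hm1
  have hms : (5 * m : ℝ) * σ ≤ 10 := by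
    have h1 : (m : ℝ) ≤ 1 / σ + 1 := by
      rw [hm]
      exact (Nat.ceil_lt_add_one (one_div_pos.2 hσ0).le).le
    have h2 : (m : ℝ) * σ ≤ 1 + σ := by
      calc (m : ℝ) * σ ≤ (1 / σ + 1) * σ := by gcongr
        _ = 1 + σ := by field_simp
    linarith
  obtain ⟨I, Q, hI, hSI, hQS, hQ⟩ := cover A S hS hA (fun _ => m) fun _ => hm0
  refine ⟨I.card, fun i => Q (I.equivFin.symm i), ?_, ?_, ?_⟩
  · intro v hv
    obtain ⟨t, ht, hvt⟩ := mem_iUnion₂.1 (hSI hv)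
    exact mem_iUnion.2 ⟨I.equivFin ⟨t, ht⟩, by simpa using hvt⟩
  · have h3 : (I.card : ℝ) ≤ (5 * m : ℝ) ^ A.card := by
      rw [Finset.prod_const] at hI
      exact_mod_cast hI
    calc (I.card : ℝ) * σ ^ A.card ≤ (5 * m : ℝ) ^ A.card * σ ^ A.card := by gcongr
      _ = ((5 * m : ℝ) * σ) ^ A.card := (mul_pow _ _ _).symm
      _ ≤ 10 ^ A.card := by gcongr
  · intro i v hv w hw j
    exact (hQ _ v hv.2 w hw.2 j).trans hns

end Pool.Agent.H751.HSF
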