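import Pool.Agent.H751.HSF.Avg
import Pool.Agent.H751.HSF.Cov

/-!
# Invariant continua inside the leaves
-/

set_option autoImplicit false

open MeasureTheory Set Metric Filter Topology
open scoped ENNReal NNReal

namespace Pool.Agent.H751.HSF

open Pool.Agent.Y485.HS Pool.Agent.Y489.SP Pool.Agent.Y475.HS

/-- a connected set on which a coordinate is not constant meets one of a dense set of
hyperplanes -/
theorem meets {n : ℕ} {C : Set (E n)} (hC : IsPreconnected C) (j : Fin n) {D : Set ℝ}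
    (hD : Dense D) {x x' : E n} (hx : x ∈ C) (hx' : x' ∈ C) (hne : x j ≠ x' j) :
    ∃ r ∈ D, ∃ z ∈ C, z j = r := by
  have hc : Continuous (fun v : E n => v j) := (EuclideanSpace.proj j : E n →L[ℝ] ℝ).continuous
  have h1 : IsPreconnected ((fun v : E n => v j) '' C) := hC.image _ hc.continuousOn
  have h2 := h1.ordConnected
  wlog hlt : x j < x' j generalizing x x'
  · exact this hx' hx hne.symm (lt_of_le_of_ne (not_lt.1 hlt) hne.symm)
  obtain ⟨r, hrD, hr⟩ := hD.exists_between hlt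
  obtain ⟨z, hz, hzr⟩ := h2.out (mem_image_of_mem _ hx) (mem_image_of_mem _ hx')
    ⟨hr.1.le, hr.2.le⟩
  exact ⟨r, hrD, z, hz, hzr⟩

theorem core {p n : ℕ} (hp : p.Prime) (hn : 1 ≤ n) {K : Type} [Group K] [TopologicalSpace K]
    [IsTopologicalGroup K] {T : K → E n → E n} (hT : LocAct n K T) (g : K)
    (hg : Tendsto (fun j : ℕ => g ^ p ^ j) atTop (𝓝 1))
    (hden : Dense ((Subgroup.zpowers g : Subgroup K) : Set K)) (F : E n → E n)
    (hF1 : ContinuousOn F (BB n)) (hF2 : ∀ x ∈ BB n, dist (F x) x ≤ 1 / 4)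
    (hF3 : ∀ k, ∀ x ∈ BB n, T k x ∈ BB n → F (T k x) = F x)
    (hF4 : ∀ x ∈ BB n, (∀ k, T k x = x) → F x = x)
    (hF5 : ∀ x ∈ BB n, ∀ i, (∀ k, T k x i = x i) → F x i = x i)
    (hb : ∀ k : Fin n, ∃ D : Set ℝ, Dense D ∧ ∀ r ∈ D, volume ((fun x : E n => (F x).ofLp) ''
      {x : E n | x ∈ closedBall (0 : E n) (5 / 4) ∧ x k = r ∧ ∀ l, l < k → F x l = x l}) = 0) :
    ∀ y ∈ ball (0 : E n) 1, T g y = y := by
  classical
  have hc' : ∀ k : Fin n, ∃ D : Set ℝ, D.Countable ∧ Dense D ∧ ∀ r ∈ D,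
      volume ((fun x : E n => (F x).ofLp) '' {x : E n | x ∈ closedBall (0 : E n) (5 / 4) ∧
        x k = r ∧ ∀ l, l < k → F x l = x l}) = 0 := by
    intro k
    obtain ⟨D0, hD0, h0⟩ := hb k
    obtain ⟨D, hDD0, hDc, hD⟩ := hD0.exists_countable_dense_subset
    exact ⟨D, hDc, hD, fun r hr => h0 r (hDD0 hr)⟩
  choose G hGc hGd hG using hc'
  obtain ⟨Bad, hBad⟩ : ∃ Bad : Set (Fin n → ℝ), Bad =
      ⋃ k : Fin n, ⋃ r ∈ G k, (fun x : E n => (F x).ofLp) ''
        {x : E n | x ∈ closedBall (0 : E n) (5 / 4) ∧ x k = r ∧ ∀ l, l < k → F x l = x l} :=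
    ⟨_, rfl⟩
  have hBad0 : volume Bad = 0 := by
    rw [hBad]
    refine measure_iUnion_null fun k => ?_
    exact (measure_biUnion_null_iff (hGc k)).2 fun r hr => hG k r hr
  have hCB : closedBall (0 : E n) (5 / 4) ⊆ BB n := closedBall_subset_closedBall (by norm_num)
  have key : ∀ y ∈ ball (0 : E n) 1, y.ofLp ∉ Bad → T g y = y := by
    intro y hy hyB
    obtain ⟨C, hC1, hC2, hC3, hC4, hC5⟩ := Pool.Agent.R775.HS.exists_cont hp hn hT g hg F hF1 hF2
      (fun x hx => by
        have hx4 : x ∈ BB n := closedBall_subset_closedBall (by norm_num) hx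
        refine hF3 g x hx4 (mem_BB.2 ?_)
        have h1 := norm_T_le hT g hx4
        have h2 : ‖x‖ ≤ 3 := by simpa using hx
        linarith) hy
    have hCBB : ∀ x ∈ C, x ∈ BB n := fun x hx => hCB (hC3 hx)
    -- `C` is invariant under the whole group
    have hinv : ∀ k : K, ∀ x ∈ C, T k x ∈ C := by
      have hcl : IsClosed {k : K | ∀ x ∈ C, T k x ∈ C} := by
        have : {k : K | ∀ x ∈ C, T k x ∈ C} = ⋂ x ∈ C, {k : K | T k x ∈ C} := by
          ext k
          simp
        rw [this]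
        refine isClosed_biInter fun x hx => ?_
        exact hC1.isClosed.preimage (hT.cont_left (hCBB x hx))
      have hgC : ∀ x ∈ C, T g x ∈ C := by
        intro x hx
        rw [← hC5]
        exact mem_image_of_mem _ hx
      have hgC' : ∀ x ∈ C, T g⁻¹ x ∈ C := by
        intro x hx
        have hx' := hx
        rw [← hC5] at hx'
        obtain ⟨z, hz, hzx⟩ := hx'
        have h1 := hT.inv g (hCBB z hz) (by rw [hzx]; exact hCBB x hx)
        rw [hzx] at h1
        rw [h1]
        exact hz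
      have hmul : ∀ a b : K, (∀ x ∈ C, T a x ∈ C) → (∀ x ∈ C, T b x ∈ C) →
          ∀ x ∈ C, T (a * b) x ∈ C := by
        intro a b ha hb x hx
        rw [hT.mul a b x (hCBB x hx) (hCBB _ (hb x hx))]
        exact ha _ (hb x hx)
      have hone : ∀ x ∈ C, T 1 x ∈ C := by
        intro x hx
        rw [hT.one x (hCBB x hx)]
        exact hx
      have hpow : ∀ (a : K), (∀ x ∈ C, T a x ∈ C) → ∀ m : ℕ, ∀ x ∈ C, T (a ^ m) x ∈ C := by
        intro a ha m
        induction m with
        | zero => rw [pow_zero]; exact hone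
        | succ m ih => rw [pow_succ]; exact hmul _ _ ih ha
      have hz : ((Subgroup.zpowers g : Subgroup K) : Set K) ⊆ {k : K | ∀ x ∈ C, T k x ∈ C} := by
        rintro _ ⟨m, rfl⟩
        show ∀ x ∈ C, T (g ^ m) x ∈ C
        obtain ⟨m, rfl | rfl⟩ := m.eq_nat_or_neg
        · rw [zpow_natCast]
          exact hpow g hgC m
        · rw [zpow_neg, zpow_natCast, ← inv_pow]
          exact hpow g⁻¹ hgC' m
      have h2 := hcl.closure_subset_iff.2 hz
      rw [hden.closure_eq] at h2
      exact fun k => h2 (mem_univ k)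
    have hconst : ∀ k : Fin n, ∀ x ∈ C, ∀ x' ∈ C, x k = x' k := by
      intro k
      induction k using WellFoundedLT.induction with
      | ind k ih =>
        intro x hx x' hx'
        by_contra hne
        obtain ⟨r, hr, z, hz, hzr⟩ := meets hC2.isPreconnected k (hGd k) hx hx' hne
        apply hyB
        rw [hBad]
        refine mem_iUnion.2 ⟨k, mem_iUnion₂.2 ⟨r, hr, z, ⟨hC3 hz, hzr, fun l hl => ?_⟩, ?_⟩⟩
        · exact hF5 z (hCBB z hz) l fun q => ih l hl _ (hinv q z hz) z hz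
        · show (F z).ofLp = y.ofLp
          rw [hC4 z hz]
    have hall : ∀ x ∈ C, ∀ x' ∈ C, x = x' := by
      intro x hx x' hx'
      ext j
      exact hconst j x hx x' hx'
    obtain ⟨x, hx⟩ := hC2.nonempty
    have hfix : ∀ k, T k x = x := fun k => hall _ (hinv k x hx) x hx
    have hxy : x = y := by rw [← hC4 x hx, hF4 x (hCBB x hx) hfix]
    rw [← hxy]
    exact hfix g
  intro y hy
  by_contra hne
  have hop : IsOpen {v : E n | v ∈ ball (0 : E n) 1 ∧ T g v ≠ v} := by
    have h1 : ContinuousOn (T g) (ball (0 : E n) 1) := (hT.cont_right g).mono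
      (ball_subset_closedBall.trans (closedBall_subset_closedBall (by norm_num)))
    have h2 : ContinuousOn (fun v => T g v - v) (ball (0 : E n) 1) := h1.sub continuousOn_id
    have h3 := h2.isOpen_inter_preimage isOpen_ball (isOpen_compl_singleton (x := (0 : E n)))
    convert h3 using 1
    ext v
    simp [sub_eq_zero]
  have hcl : Continuous (fun z : Fin n → ℝ => (WithLp.toLp 2 z : E n)) := by fun_prop
  have hop2 : IsOpen ((fun z : Fin n → ℝ => (WithLp.toLp 2 z : E n)) ⁻¹'
      {v : E n | v ∈ ball (0 : E n) 1 ∧ T g v ≠ v}) := hop.preimage hcl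
  have hpos := hop2.measure_pos volume ⟨y.ofLp, by exact ⟨hy, hne⟩⟩
  have hnsub : ¬ ((fun z : Fin n → ℝ => (WithLp.toLp 2 z : E n)) ⁻¹'
      {v : E n | v ∈ ball (0 : E n) 1 ∧ T g v ≠ v}) ⊆ Bad := by
    intro h
    exact hpos.ne' (measure_mono_null h hBad0)
  rw [not_subset] at hnsub
  obtain ⟨z, ⟨hz1, hz2⟩, hzB⟩ := hnsub
  exact hz2 (key _ hz1 hzB)

end Pool.Agent.H751.HSF
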