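import Mathlib

/-!
# Regularity along a flag of coordinate planes: definitions
-/

set_option autoImplicit false

open Set Metric Filter Topology MeasureTheory

namespace Pool.Agent.H751.HSF

/-- In the coordinates `φ`, the `l`-th coordinates of the maps in `M` are Hölder continuous with
exponent `a` on the set `S`, with a common constant. -/
def EquiHolder {X G : Type} [TopologicalSpace X] [SMul G X] {n : ℕ}
    (φ : OpenPartialHomeomorph X (EuclideanSpace ℝ (Fin n))) (M : Set G) (l : Fin n) (a : ℝ)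
    (S : Set (EuclideanSpace ℝ (Fin n))) : Prop :=
  ∃ L : ℝ, ∀ g ∈ M, ∀ v ∈ S, ∀ w ∈ S,
    |φ (g • φ.symm v) l - φ (g • φ.symm w) l| ≤ L * dist v w ^ a

/-- For every `η > 0` the set `S` is covered by finitely many sets `Q i` such that the coordinates
`l ≥ k` of the maps in `M` vary by at most `t i l` on the part of `S` in `Q i`, and the sum over `i`
of the products of the `t i l`, `l ≥ k`, is at most `η`. -/
def ThinImages {X G : Type} [TopologicalSpace X] [SMul G X] {n : ℕ}
    (φ : OpenPartialHomeomorph X (EuclideanSpace ℝ (Fin n))) (M : Set G) (k : Fin n)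
    (S : Set (EuclideanSpace ℝ (Fin n))) : Prop :=
  ∀ η : ℝ, 0 < η → ∃ (N : ℕ) (Q : Fin N → Set (EuclideanSpace ℝ (Fin n)))
    (t : Fin N → Fin n → ℝ), S ⊆ ⋃ i, Q i ∧ (∀ i l, 0 ≤ t i l) ∧
    ∑ i, ∏ l ∈ Finset.Ici k, t i l ≤ η ∧
    ∀ g ∈ M, ∀ i, ∀ v ∈ S ∩ Q i, ∀ w ∈ S ∩ Q i, ∀ l, k ≤ l →
      |φ (g • φ.symm v) l - φ (g • φ.symm w) l| ≤ t i l

/-- Regularity of the maps in `M` on a piece `S` of a coordinate plane of dimension `n - 1 - k`, the
coordinates `l ≤ k` being constant on `S`. (1) The coordinates `j > k` are Lipschitz continuous, or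
(2) they are Hölder continuous with an exponent `a` and the coordinate `k` is Hölder continuous
with an exponent `b`, `(n - 1 - k) (1 - a) < b`, or (3) the images are thin. -/
def RegularOn {X G : Type} [TopologicalSpace X] [SMul G X] {n : ℕ}
    (φ : OpenPartialHomeomorph X (EuclideanSpace ℝ (Fin n))) (M : Set G) (k : Fin n)
    (S : Set (EuclideanSpace ℝ (Fin n))) : Prop :=
  (∀ j, k < j → EquiHolder φ M j 1 S) ∨
  (∃ a b : ℝ, 0 ≤ a ∧ 0 ≤ b ∧ ((n : ℝ) - 1 - (k : ℕ)) * (1 - a) < b ∧
    (∀ j, k < j → EquiHolder φ M j a S) ∧ EquiHolder φ M k b S) ∨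
  ThinImages φ M k S

/-- Regularity along the flag of coordinate planes near the point with the coordinates `z`: for
every `k`, for a dense set of `r` and almost all `u l`, `l < k`, the maps in `M` are regular on the
plane `v l = u l` (`l < k`), `v k = r`, near `z`. -/
def RegularAlong {X G : Type} [TopologicalSpace X] [SMul G X] {n : ℕ}
    (φ : OpenPartialHomeomorph X (EuclideanSpace ℝ (Fin n))) (M : Set G)
    (z : EuclideanSpace ℝ (Fin n)) : Prop :=
  ∃ ρ : ℝ, 0 < ρ ∧ ∀ k : Fin n, ∃ D : Set ℝ, Dense D ∧ ∀ r ∈ D,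
    ∀ᵐ u : {l : Fin n // l < k} → ℝ,
      RegularOn φ M k {v | v ∈ ball z ρ ∧ v k = r ∧ ∀ l : {l : Fin n // l < k}, v l = u l}

/-- The closure of the powers of `g` is a compact group isomorphic to the group of the `p`-adic
integers: it is compact, `g ^ p ^ j → 1`, and `g` has infinite order. -/
def PAdic {G : Type} [Group G] [TopologicalSpace G] (p : ℕ) (g : G) : Prop :=
  p.Prime ∧ Tendsto (fun j : ℕ => g ^ p ^ j) atTop (𝓝 1) ∧
    IsCompact (closure (Subgroup.zpowers g : Set G)) ∧ ∀ m : ℕ, 0 < m → g ^ m ≠ 1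

end Pool.Agent.H751.HSF
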