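import Pool.Agent.H751.HSF.Leaf

/-!
# Hölder conditions on the leaves
-/

set_option autoImplicit false

open MeasureTheory Set Metric Filter Topology
open scoped ENNReal NNReal

namespace Pool.Agent.H751.HSF

open Pool.Agent.Y485.HS Pool.Agent.Y489.SP Pool.Agent.Y475.HS

theorem small {e C η : ℝ} (he : 0 < e) (hC : 0 ≤ C) (hη : 0 < η) :
    ∃ s : ℝ, 0 < s ∧ s ≤ 1 ∧ C * s ^ e ≤ η := by
  have h0 : 0 < η / (C + 1) := by positivity
  refine ⟨min 1 ((η / (C + 1)) ^ (1 / e)), by positivity, min_le_left _ _, ?_⟩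
  have h1 : (min 1 ((η / (C + 1)) ^ (1 / e))) ^ e ≤ η / (C + 1) := by
    calc (min 1 ((η / (C + 1)) ^ (1 / e))) ^ e ≤ ((η / (C + 1)) ^ (1 / e)) ^ e :=
          Real.rpow_le_rpow (by positivity) (min_le_right _ _) he.le
      _ = η / (C + 1) := by
          rw [← Real.rpow_mul h0.le, one_div_mul_cancel he.ne', Real.rpow_one]
  calc C * _ ≤ C * (η / (C + 1)) := by gcongr
    _ ≤ (C + 1) * (η / (C + 1)) := by gcongr; linarith
    _ = η := by field_simp

theorem dist_le {n : ℕ} {v w : E n} {σ : ℝ} (hσ : 0 ≤ σ) (h : ∀ l, |v l - w l| ≤ σ) :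
    dist v w ≤ n * σ := by
  rw [EuclideanSpace.dist_eq]
  have h2 : ∑ i, dist (v i) (w i) ^ 2 ≤ (n * σ) ^ 2 := by
    calc ∑ i, dist (v i) (w i) ^ 2 ≤ ∑ _i : Fin n, σ ^ 2 :=
          Finset.sum_le_sum fun i _ => pow_le_pow_left₀ dist_nonneg (h i) 2
      _ = n * σ ^ 2 := by simp
      _ ≤ (n : ℝ) ^ 2 * σ ^ 2 := by
          gcongr
          exact_mod_cast Nat.le_self_pow (by norm_num) n
      _ = (n * σ) ^ 2 := by rw [← mul_pow]
  calc √(∑ i, dist (v i) (w i) ^ 2) ≤ √((n * σ) ^ 2) := Real.sqrt_le_sqrt h2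
    _ = n * σ := Real.sqrt_sq (by positivity)

theorem thin_lip {n : ℕ} (k : Fin n) (F : E n → E n) (hF : ContinuousOn F (BB n)) (S : Set (E n))
    (hS : S ⊆ closedBall (0 : E n) (5 / 4)) (hA : ∀ v ∈ S, ∀ w ∈ S, ∀ j, j ≤ k → v j = w j) (L : ℝ)
    (h : ∀ v ∈ S, ∀ w ∈ S, ∀ j, k < j → |F v j - F w j| ≤ L * dist v w) : Thin F k S := by
  refine thin_of_box F k S hS hA fun η hη => ?_
  have hn : 0 < n := k.pos
  have hnR : (0 : ℝ) < n := by exact_mod_cast hn
  obtain ⟨M, hM⟩ : ∃ M : ℝ, M = max L 0 := ⟨_, rfl⟩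
  have hM0 : 0 ≤ M := by rw [hM]; exact le_max_right _ _
  have hLM : L ≤ M := by rw [hM]; exact le_max_left _ _
  obtain ⟨c, hc⟩ : ∃ c, c = (Finset.Ioi k).card := ⟨_, rfl⟩
  have hε : 0 < η / ((M * n) ^ c + 1) := by positivity
  have huc := (isCompact_closedBall (0 : E n) (5 / 4)).uniformContinuousOn_of_continuous
    (hF.mono (closedBall_subset_closedBall (by norm_num)))
  rw [Metric.uniformContinuousOn_iff] at huc
  obtain ⟨s0, hs0, hs⟩ := huc _ hε
  obtain ⟨σ, hσ0, hσ1, hσs⟩ : ∃ σ : ℝ, 0 < σ ∧ σ ≤ 1 ∧ n * σ < s0 := by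
    refine ⟨min (s0 / (2 * n)) 1, by positivity, min_le_right _ _, ?_⟩
    calc n * min (s0 / (2 * n)) 1 ≤ n * (s0 / (2 * n)) := by
          gcongr
          exact min_le_left _ _
      _ = s0 / 2 := by field_simp
      _ < s0 := by linarith
  refine ⟨σ, fun l => if k < l then M * (n * σ) else η / ((M * n) ^ c + 1),
    hσ0, hσ1, fun l => ?_, ?_, ?_⟩
  · dsimp only
    split_ifs
    · positivity
    · exact hε.le
  · rw [← Finset.mul_prod_Ioi_eq_prod_Ici, if_neg (lt_irrefl k),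
      Finset.prod_congr rfl (g := fun _ => M * (n * σ)) fun l hl => if_pos (Finset.mem_Ioi.1 hl),
      Finset.prod_const, ← hc, ← mul_assoc, mul_pow (M * n) σ c]
    calc η / ((M * n) ^ c + 1) * ((M * n) ^ c * σ ^ c) =
          ((M * n) ^ c / ((M * n) ^ c + 1)) * η * σ ^ c := by ring
      _ ≤ 1 * η * σ ^ c := by
          gcongr
          rw [div_le_one (by positivity)]
          linarith
      _ = _ := by ring
  · intro v hv w hw hd l hl
    have hdist := dist_le hσ0.le hd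
    dsimp only
    split_ifs with hkl
    · calc |F v l - F w l| ≤ L * dist v w := h v hv w hw l hkl
        _ ≤ M * dist v w := by gcongr
        _ ≤ M * (n * σ) := by gcongr
    · have h1 := hs v (hS hv) w (hS hw) (lt_of_le_of_lt hdist hσs)
      rw [dist_eq_norm] at h1
      have h2 : ‖(F v - F w) l‖ ≤ ‖F v - F w‖ := PiLp.norm_apply_le _ l
      rw [PiLp.sub_apply, Real.norm_eq_abs] at h2
      linarith

theorem thin_hol {n : ℕ} (k : Fin n) (F : E n → E n) (S : Set (E n))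
    (hS : S ⊆ closedBall (0 : E n) (5 / 4)) (hA : ∀ v ∈ S, ∀ w ∈ S, ∀ j, j ≤ k → v j = w j)
    (L a b : ℝ) (ha : 0 ≤ a) (hb : 0 ≤ b) (hab : ((n : ℝ) - 1 - (k : ℕ)) * (1 - a) < b)
    (h : ∀ v ∈ S, ∀ w ∈ S, (∀ j, k < j → |F v j - F w j| ≤ L * dist v w ^ a) ∧
      |F v k - F w k| ≤ L * dist v w ^ b) : Thin F k S := by
  refine thin_of_box F k S hS hA fun η hη => ?_
  have hn : 0 < n := k.pos
  have hnR : (1 : ℝ) ≤ n := by exact_mod_cast hn
  obtain ⟨M, hM⟩ : ∃ M : ℝ, M = max L 0 := ⟨_, rfl⟩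
  have hM0 : 0 ≤ M := by rw [hM]; exact le_max_right _ _
  have hLM : L ≤ M := by rw [hM]; exact le_max_left _ _
  obtain ⟨c, hc⟩ : ∃ c, c = (Finset.Ioi k).card := ⟨_, rfl⟩
  have hcR : (c : ℝ) = (n : ℝ) - 1 - (k : ℕ) := by
    have h1 := k.2
    rw [hc, Fin.card_Ioi, Nat.cast_sub (by omega : (k : ℕ) ≤ n - 1),
      Nat.cast_sub (by omega : 1 ≤ n)]
    push_cast
    ring
  rw [← hcR] at hab
  obtain ⟨τ, hτ0, hτ1, hτ⟩ := small (e := b - (c : ℝ) * (1 - a)) (C := M ^ (c + 1) * n ^ c)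
    (η := η) (by linarith) (by positivity) hη
  have hτn : (n : ℝ) * (τ / n) = τ := by field_simp
  refine ⟨τ / n, fun l => if k < l then M * τ ^ a else M * τ ^ b, by positivity, ?_,
    fun l => ?_, ?_, ?_⟩
  · rw [div_le_one (by linarith)]
    linarith
  · dsimp only
    split_ifs <;> positivity
  · rw [← Finset.mul_prod_Ioi_eq_prod_Ici, if_neg (lt_irrefl k),
      Finset.prod_congr rfl (g := fun _ => M * τ ^ a) fun l hl => if_pos (Finset.mem_Ioi.1 hl),
      Finset.prod_const, ← hc]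
    have e1 : (τ ^ a) ^ c * τ ^ b = τ ^ (b - (c : ℝ) * (1 - a)) * τ ^ c := by
      rw [← Real.rpow_natCast (τ ^ a), ← Real.rpow_mul hτ0.le, ← Real.rpow_natCast τ c,
        ← Real.rpow_add hτ0, ← Real.rpow_add hτ0]
      congr 1
      ring
    calc M * τ ^ b * (M * τ ^ a) ^ c = M ^ (c + 1) * ((τ ^ a) ^ c * τ ^ b) := by
          rw [mul_pow, pow_succ]; ring
      _ = (M ^ (c + 1) * n ^ c * τ ^ (b - (c : ℝ) * (1 - a))) * (τ / n) ^ c := by
          rw [e1, div_pow]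
          field_simp
      _ ≤ η * (τ / n) ^ c := by gcongr
  · intro v hv w hw hd l hl
    have hdist : dist v w ≤ τ := by
      rw [← hτn]
      exact dist_le (by positivity) hd
    obtain ⟨h1, h2⟩ := h v hv w hw
    dsimp only
    split_ifs with hkl
    · have := Real.rpow_le_rpow dist_nonneg hdist ha
      calc |F v l - F w l| ≤ L * dist v w ^ a := h1 l hkl
        _ ≤ M * dist v w ^ a := by gcongr
        _ ≤ M * τ ^ a := by gcongr
    · have hlk : l = k := le_antisymm (not_lt.1 hkl) hl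
      rw [hlk]
      have := Real.rpow_le_rpow dist_nonneg hdist hb
      calc |F v k - F w k| ≤ L * dist v w ^ b := h2
        _ ≤ M * dist v w ^ b := by gcongr
        _ ≤ M * τ ^ b := by gcongr

end Pool.Agent.H751.HSF
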