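import Pool.Agent.H751.HSF.Core

/-!
# Null sets of values on the leaves
-/

set_option autoImplicit false

open MeasureTheory Set Metric Filter Topology
open scoped ENNReal NNReal

namespace Pool.Agent.H751.HSF

open Pool.Agent.Y485.HS Pool.Agent.Y489.SP Pool.Agent.Y475.HS

theorem abs_coord_le {n : ℕ} {v : E n} (hv : v ∈ closedBall (0 : E n) (5 / 4)) (j : Fin n) :
    |v j| ≤ 2 := by
  have h1 : ‖v j‖ ≤ ‖v‖ := PiLp.norm_apply_le v j
  have h2 : ‖v‖ ≤ 5 / 4 := by simpa using hv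
  rw [Real.norm_eq_abs] at h1
  linarith

/-- the map `F` has thin images on a piece of a coordinate plane -/
def Thin {n : ℕ} (F : E n → E n) (k : Fin n) (S : Set (E n)) : Prop :=
  ∀ η : ℝ, 0 < η → ∃ (N : ℕ) (Q : Fin N → Set (E n))
    (t : Fin N → Fin n → ℝ), S ⊆ ⋃ i, Q i ∧ (∀ i l, 0 ≤ t i l) ∧
    ∑ i, ∏ l ∈ Finset.Ici k, t i l ≤ η ∧
    ∀ i, ∀ v ∈ S ∩ Q i, ∀ w ∈ S ∩ Q i, ∀ l, k ≤ l → |F v l - F w l| ≤ t i l

/-- thin images of small boxes -/
theorem thin_of_box {n : ℕ} (F : E n → E n) (k : Fin n) (S : Set (E n))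
    (hS : S ⊆ closedBall (0 : E n) (5 / 4)) (hA : ∀ v ∈ S, ∀ w ∈ S, ∀ j, j ≤ k → v j = w j)
    (h : ∀ η : ℝ, 0 < η → ∃ (σ : ℝ) (t : Fin n → ℝ), 0 < σ ∧ σ ≤ 1 ∧ (∀ l, 0 ≤ t l) ∧
      ∏ l ∈ Finset.Ici k, t l ≤ η * σ ^ (Finset.Ioi k).card ∧
      ∀ v ∈ S, ∀ w ∈ S, (∀ l, |v l - w l| ≤ σ) → ∀ l, k ≤ l → |F v l - F w l| ≤ t l) :
    Thin F k S := by
  intro η hη
  obtain ⟨c, hc⟩ : ∃ c, c = (Finset.Ioi k).card := ⟨_, rfl⟩
  obtain ⟨σ, t, hσ0, hσ1, ht, hp, hall⟩ := h (η / 10 ^ c) (by positivity)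
  obtain ⟨N, Q, hSQ, hN, hQ⟩ := box_cover (Finset.Ioi k) S (fun v hv => abs_coord_le (hS hv))
    (fun v hv w hw j hj => hA v hv w hw j (not_lt.1 fun h => hj (Finset.mem_Ioi.2 h))) σ hσ0 hσ1
  refine ⟨N, Q, fun _ => t, hSQ, fun _ => ht, ?_, fun i v hv w hw l hl =>
    hall v hv.1 w hw.1 (hQ i v hv w hw) l hl⟩
  rw [Finset.sum_const, Finset.card_univ, Fintype.card_fin, nsmul_eq_mul]
  rw [← hc] at hN hp
  calc (N : ℝ) * ∏ l ∈ Finset.Ici k, t l ≤ N * (η / 10 ^ c * σ ^ c) := by gcongr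
    _ = (N * σ ^ c) * (η / 10 ^ c) := by ring
    _ ≤ 10 ^ c * (η / 10 ^ c) := by gcongr
    _ = η := by field_simp

/-- the values of `F` at the points of a hyperplane at which the first coordinates are preserved -/
theorem null_k {n : ℕ} (k : Fin n) (F : E n → E n)
    (hF : ContinuousOn F (closedBall (0 : E n) (5 / 4))) (r : ℝ)
    (h : ∀ᵐ u : {l : Fin n // l < k} → ℝ, Thin F k {v | v ∈ closedBall (0 : E n) (5 / 4) ∧
      v k = r ∧ ∀ l : {l : Fin n // l < k}, v l = u l}) :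
    volume ((fun x : E n => (F x).ofLp) ''
      {x : E n | x ∈ closedBall (0 : E n) (5 / 4) ∧ x k = r ∧ ∀ l, l < k → F x l = x l}) = 0 := by
  classical
  obtain ⟨Y, hY⟩ : ∃ Y : Set (Fin n → ℝ), Y = (fun x : E n => (F x).ofLp) ''
      {x : E n | x ∈ closedBall (0 : E n) (5 / 4) ∧ x k = r ∧ ∀ l, l < k → F x l = x l} :=
    ⟨_, rfl⟩
  rw [← hY]
  have hco : ∀ l : Fin n, Continuous (fun v : E n => v l) := fun l =>
    (EuclideanSpace.proj l : E n →L[ℝ] ℝ).continuous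
  have hYc : IsCompact Y := by
    rw [hY]
    refine IsCompact.image_of_continuousOn ?_ ?_
    · have h1 : IsClosed {x : E n | x ∈ closedBall (0 : E n) (5 / 4) ∧ x k = r ∧
          ∀ l, l < k → F x l = x l} := by
        have h2 : ContinuousOn (fun x : E n => (x k, fun l : {l : Fin n // l < k} => F x l - x l))
            (closedBall (0 : E n) (5 / 4)) :=
          (hco k).continuousOn.prodMk (continuousOn_pi.2 fun l =>
            ((hco l).comp_continuousOn hF).sub (hco l).continuousOn)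
        have h3 := h2.preimage_isClosed_of_isClosed isClosed_closedBall
          (isClosed_singleton (x := ((r, 0) : ℝ × ({l : Fin n // l < k} → ℝ))))
        convert h3 using 1
        ext x
        simp [sub_eq_zero, funext_iff]
      exact (isCompact_closedBall (0 : E n) (5 / 4)).of_isClosed_subset h1 fun x hx => hx.1
    · have h4 : Continuous (fun v : E n => v.ofLp) := by fun_prop
      exact h4.comp_continuousOn (hF.mono fun x hx => hx.1)
  let e := MeasurableEquiv.piEquivPiSubtypeProd (fun _ : Fin n => ℝ) (fun l => l < k)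
  have hme : MeasurePreserving e volume volume :=
    volume_preserving_piEquivPiSubtypeProd (fun _ : Fin n => ℝ) (fun l => l < k)
  have hZ : MeasurableSet (e.symm ⁻¹' Y) := e.symm.measurable hYc.measurableSet
  have h1 : volume Y = volume (e.symm ⁻¹' Y) := by
    rw [← hme.measure_preimage hZ.nullMeasurableSet, ← preimage_comp]
    congr 1
    ext y
    simp
  rw [h1, Measure.volume_eq_prod, Measure.measure_prod_null hZ]
  filter_upwards [h] with u hu
  show volume (Prod.mk u ⁻¹' (e.symm ⁻¹' Y)) = 0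
  have hsub : Prod.mk u ⁻¹' (e.symm ⁻¹' Y) ⊆
      (fun (x : E n) (l : {l : Fin n // ¬ l < k}) => F x l) ''
      {v | v ∈ closedBall (0 : E n) (5 / 4) ∧ v k = r ∧ ∀ l : {l : Fin n // l < k}, v l = u l} := by
    intro z hz
    have hz' : e.symm (u, z) ∈ Y := hz
    rw [hY] at hz'
    obtain ⟨x, ⟨hx1, hx2, hx3⟩, hx4⟩ := hz'
    have h5 : ∀ l : Fin n, F x l = e.symm (u, z) l := fun l => congrFun hx4 l
    refine ⟨x, ⟨hx1, hx2, fun l => ?_⟩, ?_⟩
    · rw [← hx3 l l.2, h5]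
      have hl := l.2
      simp [e, MeasurableEquiv.piEquivPiSubtypeProd, Equiv.piEquivPiSubtypeProd, hl]
    · funext l
      show F x l = z l
      rw [h5]
      have hl := l.2
      simp [e, MeasurableEquiv.piEquivPiSubtypeProd, Equiv.piEquivPiSubtypeProd, hl]
  refine measure_mono_null hsub ?_
  refine null_image (ι := {l : Fin n // ¬ l < k}) _
    (fun (x : E n) (l : {l : Fin n // ¬ l < k}) => F x l) fun η hη => ?_
  obtain ⟨N, Q, t, hSQ, ht, hsum, hall⟩ := hu η hη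
  refine ⟨N, Q, fun i l => t i l, hSQ, fun i l => ht i l, ?_, fun i v hv w hw l =>
    hall i v hv w hw l (not_lt.1 l.2)⟩
  have h6 : ∀ i, ∏ l : {l : Fin n // ¬ l < k}, t i l = ∏ l ∈ Finset.Ici k, t i l := fun i => by
    rw [← Finset.prod_subtype (Finset.Ici k) (fun l => by rw [Finset.mem_Ici, not_lt]) (t i)]
  rw [Finset.sum_congr rfl fun i _ => h6 i]
  exact hsum

end Pool.Agent.H751.HSF
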