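import Pool.Agent.H751.HSF.Hol
import Pool.Agent.H751.HSF.Defs
import Pool.Graph.R_pool_sql_team_seeded_64922ed1.X169.HT.Glob

/-!
# The local theorem and the globalisation
-/

set_option autoImplicit false

open MeasureTheory Set Metric Filter Topology
open scoped ENNReal NNReal

namespace Pool.Agent.H751.HSF

open Pool.Agent.Y485.HS Pool.Agent.Y489.SP Pool.Agent.Y475.HS
open Pool.Agent.R775.HS (Small locAct_of_small exists_sim trivSub isClosed_triv)

section
variable {n : ℕ} {X : Type} [TopologicalSpace X]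

theorem EquiHolder.uniform {G : Type} [SMul G X] {φ : OpenPartialHomeomorph X (E n)} {M : Set G}
    {P : Fin n → Prop} {a : ℝ} {S : Set (E n)} (h : ∀ l, P l → EquiHolder φ M l a S) :
    ∃ L : ℝ, ∀ l, P l → ∀ g ∈ M, ∀ v ∈ S, ∀ w ∈ S,
      |φ (g • φ.symm v) l - φ (g • φ.symm w) l| ≤ L * dist v w ^ a := by
  classical
  have h1 : ∀ l, ∃ L : ℝ, 0 ≤ L ∧ (P l → ∀ g ∈ M, ∀ v ∈ S, ∀ w ∈ S,
      |φ (g • φ.symm v) l - φ (g • φ.symm w) l| ≤ L * dist v w ^ a) := by
    intro l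
    by_cases hl : P l
    · obtain ⟨L, hL⟩ := h l hl
      refine ⟨max L 0, le_max_right _ _, fun _ g hg v hv w hw => (hL g hg v hv w hw).trans ?_⟩
      gcongr
      exact le_max_left _ _
    · exact ⟨0, le_rfl, fun h => (hl h).elim⟩
  choose L hL0 hL using h1
  refine ⟨∑ l, L l, fun l hl g hg v hv w hw => (hL l hl g hg v hv w hw).trans ?_⟩
  gcongr
  exact Finset.single_le_sum (fun i _ => hL0 i) (Finset.mem_univ l)

theorem EquiHolder.scale {G : Type} [SMul G X] {φ : OpenPartialHomeomorph X (E n)} {M M' : Set G}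
    {l : Fin n} {a : ℝ} {S S' : Set (E n)} (h : EquiHolder φ M l a S) (hM : M' ⊆ M) {c : ℝ}
    (hc : 0 < c) {z : E n} {e : OpenPartialHomeomorph (E n) (E n)} (he : ∀ v, e v = c • (v - z))
    (he' : ∀ v, e.symm v = c⁻¹ • v + z) (hS : ∀ v ∈ S', c⁻¹ • v + z ∈ S) :
    EquiHolder (φ.trans e) M' l a S' := by
  obtain ⟨L, hL⟩ := h
  refine ⟨c * L * c⁻¹ ^ a, fun g hg v hv w hw => ?_⟩
  simp only [OpenPartialHomeomorph.coe_trans, OpenPartialHomeomorph.coe_trans_symm,
    Function.comp_apply, he, he']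
  have h1 := hL g (hM hg) _ (hS v hv) _ (hS w hw)
  have h2 : dist (c⁻¹ • v + z) (c⁻¹ • w + z) = c⁻¹ * dist v w := by
    rw [dist_add_right, dist_smul₀, Real.norm_of_nonneg (inv_nonneg.2 hc.le)]
  rw [h2, Real.mul_rpow (inv_nonneg.2 hc.le) dist_nonneg] at h1
  have h3 : ∀ u u' : E n, (c • (u - z)) l - (c • (u' - z)) l = c * (u l - u' l) := by
    intro u u'
    simp only [PiLp.smul_apply, PiLp.sub_apply, smul_eq_mul]
    ring
  rw [h3, abs_mul, abs_of_pos hc]
  calc c * |_| ≤ c * (L * (c⁻¹ ^ a * dist v w ^ a)) := by gcongr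
    _ = _ := by ring

theorem ThinImages.scale {G : Type} [SMul G X] {φ : OpenPartialHomeomorph X (E n)} {M M' : Set G}
    {k : Fin n} {S S' : Set (E n)} (h : ThinImages φ M k S) (hM : M' ⊆ M) {c : ℝ}
    (hc : 0 < c) {z : E n} {e : OpenPartialHomeomorph (E n) (E n)} (he : ∀ v, e v = c • (v - z))
    (he' : ∀ v, e.symm v = c⁻¹ • v + z) (hS : ∀ v ∈ S', c⁻¹ • v + z ∈ S) :
    ThinImages (φ.trans e) M' k S' := by
  intro η hη
  obtain ⟨A, hA⟩ : ∃ A, A = (Finset.Ici k).card := ⟨_, rfl⟩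
  obtain ⟨N, Q, t, hSQ, ht, hst, hall⟩ := h (η / c ^ A) (by positivity)
  refine ⟨N, fun i => {v | c⁻¹ • v + z ∈ Q i}, fun i l => c * t i l, ?_,
    fun i l => mul_nonneg hc.le (ht i l), ?_, ?_⟩
  · intro v hv
    obtain ⟨i, hi⟩ := mem_iUnion.1 (hSQ (hS v hv))
    exact mem_iUnion.2 ⟨i, hi⟩
  · have h1 : ∀ i, ∏ l ∈ Finset.Ici k, c * t i l = c ^ A * ∏ l ∈ Finset.Ici k, t i l := fun i => by
      rw [Finset.prod_mul_distrib, Finset.prod_const, ← hA]
    rw [Finset.sum_congr rfl fun i _ => h1 i, ← Finset.mul_sum]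
    calc c ^ A * ∑ i, ∏ l ∈ Finset.Ici k, t i l ≤ c ^ A * (η / c ^ A) := by gcongr
      _ = η := by field_simp
  · intro g hg i v hv w hw l hl
    simp only [OpenPartialHomeomorph.coe_trans, OpenPartialHomeomorph.coe_trans_symm,
      Function.comp_apply, he, he']
    have h3 : ∀ u u' : E n, (c • (u - z)) l - (c • (u' - z)) l = c * (u l - u' l) := by
      intro u u'
      simp only [PiLp.smul_apply, PiLp.sub_apply, smul_eq_mul]
      ring
    rw [h3, abs_mul, abs_of_pos hc]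
    gcongr
    exact hall g (hM hg) i _ ⟨hS v hv.1, hv.2⟩ _ ⟨hS w hw.1, hw.2⟩ l hl

theorem RegularOn.scale {G : Type} [SMul G X] {φ : OpenPartialHomeomorph X (E n)} {M M' : Set G}
    {k : Fin n} {S S' : Set (E n)} (h : RegularOn φ M k S) (hM : M' ⊆ M) {c : ℝ}
    (hc : 0 < c) {z : E n} {e : OpenPartialHomeomorph (E n) (E n)} (he : ∀ v, e v = c • (v - z))
    (he' : ∀ v, e.symm v = c⁻¹ • v + z) (hS : ∀ v ∈ S', c⁻¹ • v + z ∈ S) :
    RegularOn (φ.trans e) M' k S' := by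
  rcases h with h | ⟨a, b, ha, hb, hab, h1, h2⟩ | h
  · exact Or.inl fun j hj => (h j hj).scale hM hc he he' hS
  · exact Or.inr (Or.inl ⟨a, b, ha, hb, hab, fun j hj => (h1 j hj).scale hM hc he he' hS,
      h2.scale hM hc he he' hS⟩)
  · exact Or.inr (Or.inr (h.scale hM hc he he' hS))

theorem dense_scale {D : Set ℝ} (hD : Dense D) {c : ℝ} (hc : 0 < c) (t : ℝ) :
    Dense {γ : ℝ | c⁻¹ * γ + t ∈ D} := by
  have h1 := hD.preimage (((Homeomorph.mulLeft₀ c⁻¹ (inv_ne_zero hc.ne')).trans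
    (Homeomorph.addRight t)).isOpenMap)
  exact h1

theorem ae_scale {ι : Type} [Fintype ι] {P : (ι → ℝ) → Prop} (h : ∀ᵐ u : ι → ℝ, P u) {c : ℝ}
    (hc : 0 < c) (z : ι → ℝ) : ∀ᵐ u : ι → ℝ, P (c⁻¹ • u + z) := by
  have h1 : ∀ᵐ x : ι → ℝ, P (x + z) :=
    (measurePreserving_add_right volume z).quasiMeasurePreserving.ae h
  rw [ae_iff] at h1 ⊢
  have h2 := Measure.addHaar_preimage_smul (volume : Measure (ι → ℝ)) (inv_ne_zero hc.ne')
    {x : ι → ℝ | ¬ P (x + z)}
  rw [h1, mul_zero] at h2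
  exact h2

/-- an element of prime power type of a small group which is regular along the flag acts
trivially on the unit ball -/
theorem triv_elem {S : Type} [Group S] [TopologicalSpace S] [IsTopologicalGroup S]
    [CompactSpace S] [T2Space S] [MulAction S X] [ContinuousSMul S X]
    {ψ : OpenPartialHomeomorph X (E n)} {K : Subgroup S} (hK : IsClosed (K : Set S))
    (hs : Small ψ (K : Set S))
    (hb : ∀ k : Fin n, ∃ D : Set ℝ, Dense D ∧ ∀ r ∈ D, ∀ᵐ u : {l : Fin n // l < k} → ℝ,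
      RegularOn ψ (K : Set S) k {v | v ∈ closedBall (0 : E n) (5 / 4) ∧ v k = r ∧
        ∀ l : {l : Fin n // l < k}, v l = u l})
    {p : ℕ} (hp : p.Prime) {g : S} (hg : g ∈ K)
    (hgp : Tendsto (fun j : ℕ => g ^ p ^ j) atTop (𝓝 1)) :
    ∀ v ∈ ball (0 : E n) 1, g • ψ.symm v = ψ.symm v := by
  classical
  have hle : (Subgroup.zpowers g).topologicalClosure ≤ K :=
    Subgroup.topologicalClosure_minimal _ ((Subgroup.zpowers_le).2 hg) hK
  have hcomp : IsCompact ((Subgroup.zpowers g).topologicalClosure : Set S) :=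
    (Subgroup.isClosed_topologicalClosure _).isCompact
  have hsQ : Small ψ ((Subgroup.zpowers g).topologicalClosure : Set S) :=
    ⟨hs.1, fun h hh => hs.2 h (hle hh)⟩
  have hgQ : g ∈ (Subgroup.zpowers g).topologicalClosure :=
    Subgroup.le_topologicalClosure _ (Subgroup.mem_zpowers g)
  obtain ⟨Q, hQ⟩ : ∃ Q : Subgroup S, Q = (Subgroup.zpowers g).topologicalClosure := ⟨_, rfl⟩
  rw [← hQ] at hle hcomp hsQ hgQ
  have hQc : CompactSpace Q := isCompact_iff_compactSpace.1 hcomp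
  have hT := locAct_of_small Q hsQ
  obtain ⟨F, hF1, hF2, hF3, hF4, hF5, hF6⟩ := average hT
  have hgp' : Tendsto (fun j : ℕ => (⟨g, hgQ⟩ : Q) ^ p ^ j) atTop (𝓝 1) := by
    rw [tendsto_subtype_rng]
    simpa using hgp
  have hden : Dense ((Subgroup.zpowers (⟨g, hgQ⟩ : Q) : Subgroup Q) : Set Q) := by
    intro q
    rw [closure_subtype]
    have h1 : ((q : S)) ∈ closure ((Subgroup.zpowers g : Subgroup S) : Set S) := by
      rw [← Subgroup.topologicalClosure_coe, ← hQ]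
      exact q.2
    refine closure_mono ?_ h1
    rintro _ ⟨m, rfl⟩
    exact ⟨(⟨g, hgQ⟩ : Q) ^ m, ⟨m, rfl⟩, by simp⟩
  have hCB : closedBall (0 : E n) (5 / 4) ⊆ BB n := closedBall_subset_closedBall (by norm_num)
  have hiff : ∀ v ∈ closedBall (0 : E n) 4, ψ (g • ψ.symm v) = v ↔ g • ψ.symm v = ψ.symm v := by
    intro v hv
    constructor
    · intro h
      rw [← ψ.left_inv (hs.2 g hg v hv).1, h]
    · intro h
      rw [h, ψ.right_inv (hs.1 hv)]
  have key : ∀ v ∈ ball (0 : E n) 1, ψ (g • ψ.symm v) = v := by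
    rcases Nat.eq_zero_or_pos n with hn | hn
    · subst hn
      intro v _
      exact Subsingleton.elim _ _
    refine core hp hn hT (⟨g, hgQ⟩ : Q) hgp' hden F hF1 hF2 hF3 hF4 hF5 fun k => ?_
    obtain ⟨D, hD, hDr⟩ := hb k
    refine ⟨D, hD, fun r hr => null_k k F (hF1.mono hCB) r ?_⟩
    filter_upwards [hDr r hr] with u hu
    have hS : {v | v ∈ closedBall (0 : E n) (5 / 4) ∧ v k = r ∧
        ∀ l : {l : Fin n // l < k}, v l = u l} ⊆ closedBall (0 : E n) (5 / 4) := fun v hv => hv.1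
    have hA : ∀ v ∈ {v : E n | v ∈ closedBall (0 : E n) (5 / 4) ∧ v k = r ∧
        ∀ l : {l : Fin n // l < k}, v l = u l}, ∀ w ∈ {v : E n | v ∈ closedBall (0 : E n) (5 / 4) ∧
        v k = r ∧ ∀ l : {l : Fin n // l < k}, v l = u l}, ∀ j, j ≤ k → v j = w j := by
      intro v hv w hw j hj
      rcases hj.lt_or_eq with h1 | h1
      · exact (hv.2.2 ⟨j, h1⟩).trans (hw.2.2 ⟨j, h1⟩).symm
      · rw [h1, hv.2.1, hw.2.1]
    rcases hu with h1 | ⟨a, b, ha, hb, hab, h1, h2⟩ | h1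
    · obtain ⟨L, hL⟩ := EquiHolder.uniform h1
      refine thin_lip k F hF1 _ hS hA L fun v hv w hw j hj => ?_
      refine hF6 v (hCB (hS hv)) w (hCB (hS hw)) j _ fun q => ?_
      have := hL j hj (q : S) (hle q.2) v hv w hw
      rwa [Real.rpow_one] at this
    · obtain ⟨L, hL⟩ := EquiHolder.uniform h1
      obtain ⟨L', hL'⟩ := h2
      refine thin_hol k F _ hS hA (max L L') a b ha hb hab fun v hv w hw => ⟨fun j hj => ?_, ?_⟩
      · refine hF6 v (hCB (hS hv)) w (hCB (hS hw)) j _ fun q => ?_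
        refine (hL j hj (q : S) (hle q.2) v hv w hw).trans ?_
        gcongr
        exact le_max_left _ _
      · refine hF6 v (hCB (hS hv)) w (hCB (hS hw)) k _ fun q => ?_
        refine (hL' (q : S) (hle q.2) v hv w hw).trans ?_
        gcongr
        exact le_max_right _ _
    · intro η hη
      obtain ⟨N, Q', t, hSQ, ht, hst, hall⟩ := h1 η hη
      refine ⟨N, Q', t, hSQ, ht, hst, fun i v hv w hw l hl => ?_⟩
      refine hF6 v (hCB (hS hv.1)) w (hCB (hS hw.1)) l _ fun q => ?_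
      exact hall (q : S) (hle q.2) i v hv w hw l hl
  intro v hv
  have hv4 : v ∈ closedBall (0 : E n) 4 :=
    ball_subset_closedBall.trans (closedBall_subset_closedBall (by norm_num)) hv
  exact (hiff v hv4).1 (key v hv)

/-- small open subgroups -/
theorem exists_small {S : Type} [Group S] [TopologicalSpace S] [IsTopologicalGroup S]
    [CompactSpace S] [T2Space S] [TotallyDisconnectedSpace S] [MulAction S X]
    [ContinuousSMul S X] (φ : OpenPartialHomeomorph X (E n)) (htgt : closedBall 0 4 ⊆ φ.target)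
    {M : Set S} (hM : M ∈ 𝓝 (1 : S)) :
    ∃ K : Subgroup S, IsOpen (K : Set S) ∧ (K : Set S) ⊆ M ∧ Small φ (K : Set S) := by
  have key : ∀ᶠ h : S in 𝓝 1, ∀ v ∈ closedBall (0 : E n) 4,
      h • φ.symm v ∈ φ.source ∧ dist (φ (h • φ.symm v)) v ≤ 1 / 4 := by
    apply (isCompact_closedBall (0 : E n) 4).eventually_forall_of_forall_eventually
    intro v hv
    have hvt := htgt hv
    have h1 : ContinuousAt (fun z : S × E n => z.1 • φ.symm z.2) (1, v) := by
      refine ContinuousAt.smul continuousAt_fst ?_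
      exact ContinuousAt.comp (f := fun z : S × E n => z.2) (x := ((1 : S), v))
        (φ.continuousAt_symm hvt) continuousAt_snd
    have hs1 : (1 : S) • φ.symm v ∈ φ.source := by rw [one_smul]; exact φ.map_target hvt
    have h2 : ContinuousAt φ ((1 : S) • φ.symm v) := φ.continuousAt hs1
    have h3 : ContinuousAt (fun z : S × E n => φ (z.1 • φ.symm z.2)) (1, v) :=
      ContinuousAt.comp (f := fun z : S × E n => z.1 • φ.symm z.2) (x := ((1 : S), v)) h2 h1
    have h5 : Tendsto (fun z : S × E n => dist (φ (z.1 • φ.symm z.2)) z.2) (𝓝 (1, v)) (𝓝 0) := by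
      have h6 : Tendsto (fun z : S × E n => dist (φ (z.1 • φ.symm z.2)) z.2) (𝓝 (1, v))
        (𝓝 (dist (φ ((1 : S) • φ.symm v)) v)) := h3.dist continuousAt_snd
      have h7 : dist (φ ((1 : S) • φ.symm v)) v = 0 := by
        rw [one_smul, φ.right_inv hvt, dist_self]
      rwa [h7] at h6
    have h8 : ∀ᶠ z : S × E n in 𝓝 (1, v), z.1 • φ.symm z.2 ∈ φ.source :=
      h1.eventually_mem (φ.open_source.mem_nhds hs1)
    filter_upwards [h8, h5.eventually (gt_mem_nhds (by norm_num : (0 : ℝ) < 1 / 4))] with z hz1 hz2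
    exact ⟨hz1, hz2.le⟩
  have key2 : ∀ᶠ h : S in 𝓝 1, h ∈ M ∧ ∀ v ∈ closedBall (0 : E n) 4,
      h • φ.symm v ∈ φ.source ∧ dist (φ (h • φ.symm v)) v ≤ 1 / 4 :=
    (Filter.eventually_mem_set.2 hM).and key
  obtain ⟨V, hV, hVo, hV1⟩ := eventually_nhds_iff.1 key2
  obtain ⟨N, hN⟩ := ProfiniteGrp.exist_openNormalSubgroup_sub_open_nhds_of_one hVo hV1
  exact ⟨N.toSubgroup, N.isOpen, fun h hh => (hV h (hN hh)).1, htgt,
    fun h hh v hv => (hV h (hN hh)).2 v hv⟩

/-- the local theorem -/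
theorem loc [T2Space X] {S : Type} [Group S] [TopologicalSpace S] [IsTopologicalGroup S]
    [CompactSpace S] [T2Space S] [TotallyDisconnectedSpace S] [MulAction S X]
    [ContinuousSMul S X] (φ : OpenPartialHomeomorph X (E n)) {x0 : X} (hx0 : x0 ∈ φ.source)
    {M : Set S} (hM : M ∈ 𝓝 (1 : S)) (h : RegularAlong φ M (φ x0)) :
    ∃ K : Subgroup S, IsOpen (K : Set S) ∧ ∀ᶠ x in 𝓝 x0, ∀ k ∈ K, k • x = x := by
  obtain ⟨ρ, hρ, hb⟩ := h
  obtain ⟨r, hr, hball⟩ := Metric.isOpen_iff.1 φ.open_target (φ x0) (φ.map_source hx0)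
  obtain ⟨c, hc0, hcr, hcρ⟩ : ∃ c : ℝ, 0 < c ∧ c⁻¹ * 4 < r ∧ c⁻¹ * (5 / 4) < ρ := by
    have hm : 0 < min r ρ := lt_min hr hρ
    refine ⟨5 / min r ρ, by positivity, ?_, ?_⟩
    · rw [inv_div]
      have := min_le_left r ρ
      linarith
    · rw [inv_div]
      have := min_le_right r ρ
      linarith
  obtain ⟨e, he1, he2, he3, he4⟩ := exists_sim (n := n) (φ x0) hc0
  have hsrc : x0 ∈ (φ.trans e).source := by
    rw [OpenPartialHomeomorph.trans_source, he1]
    exact ⟨hx0, mem_univ _⟩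
  have htgt : closedBall 0 4 ⊆ (φ.trans e).target := by
    intro z hz
    rw [OpenPartialHomeomorph.trans_target, he2]
    refine ⟨mem_univ _, hball ?_⟩
    rw [he4, mem_ball, dist_eq_norm, add_sub_cancel_right, norm_smul, Real.norm_of_nonneg
      (inv_nonneg.2 hc0.le)]
    rw [mem_closedBall, dist_zero_right] at hz
    have h2 : c⁻¹ * ‖z‖ ≤ c⁻¹ * 4 := by gcongr
    linarith
  have h0 : (φ.trans e) x0 = 0 := by
    rw [OpenPartialHomeomorph.coe_trans, Function.comp_apply, he3, sub_self, smul_zero]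
  have hin : ∀ v ∈ closedBall (0 : E n) (5 / 4), c⁻¹ • v + φ x0 ∈ ball (φ x0) ρ := by
    intro v hv
    rw [mem_ball, dist_eq_norm, add_sub_cancel_right, norm_smul, Real.norm_of_nonneg
      (inv_nonneg.2 hc0.le)]
    rw [mem_closedBall, dist_zero_right] at hv
    have h2 : c⁻¹ * ‖v‖ ≤ c⁻¹ * (5 / 4) := by gcongr
    linarith
  have hco : ∀ (v : E n) (l : Fin n), (c⁻¹ • v + φ x0) l = c⁻¹ * v l + φ x0 l := by
    intro v l
    simp only [PiLp.add_apply, PiLp.smul_apply, smul_eq_mul]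
  obtain ⟨K, hKo, hKM, hKs⟩ := exists_small (S := S) (φ.trans e) htgt hM
  have hKc : IsClosed (K : Set S) := Subgroup.isClosed_of_isOpen K hKo
  have : CompactSpace K := isCompact_iff_compactSpace.1 hKc.isCompact
  -- the regularity in the new chart
  have hb' : ∀ k : Fin n, ∃ D : Set ℝ, Dense D ∧ ∀ r ∈ D, ∀ᵐ u : {l : Fin n // l < k} → ℝ,
      RegularOn (φ.trans e) (K : Set S) k {v | v ∈ closedBall (0 : E n) (5 / 4) ∧ v k = r ∧
        ∀ l : {l : Fin n // l < k}, v l = u l} := by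
    intro k
    obtain ⟨D, hD, hDc⟩ := hb k
    refine ⟨_, dense_scale hD hc0 (φ x0 k), fun γ hγ => ?_⟩
    filter_upwards [ae_scale (hDc _ hγ) hc0 (fun l : {l : Fin n // l < k} => φ x0 l)] with u hu
    refine hu.scale hKM hc0 he3 he4 ?_
    rintro v ⟨hv, hvγ, hvl⟩
    refine ⟨hin v hv, by rw [hco, hvγ], fun l => ?_⟩
    rw [hco, hvl]
    rfl
  obtain ⟨ψ, hψdef⟩ : ∃ ψ, ψ = φ.trans e := ⟨_, rfl⟩
  rw [← hψdef] at hsrc htgt h0 hKs hb'
  have hDc : IsClosed (trivSub K (ψ.symm '' ball (0 : E n) 1) : Set K) :=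
    isClosed_triv (Subtype.val : K → S) continuous_subtype_val _
  have hD : trivSub K (ψ.symm '' ball (0 : E n) 1) = ⊤ := by
    refine Pool.Agent.Y215.HS.syl K _ hDc ?_
    intro p hp P hPc hPp k hk
    have : CompactSpace P := isCompact_iff_compactSpace.1 hPc.isCompact
    have h1 : Tendsto (fun j : ℕ => (⟨k, hk⟩ : P) ^ p ^ j) atTop (𝓝 1) :=
      Pool.Agent.Y340.SP.t_POW p hp P hPp ⟨k, hk⟩
    have hc : Continuous (fun q : P => ((q : K) : S)) :=
      continuous_subtype_val.comp continuous_subtype_val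
    have h2 : Tendsto (fun j : ℕ => (k : S) ^ p ^ j) atTop (𝓝 1) := by
      have h3 := (hc.tendsto 1).comp h1
      simpa [Function.comp_def] using h3
    rintro _ ⟨v, hv, rfl⟩
    exact triv_elem hKc hKs hb' hp k.2 h2 v hv
  refine ⟨K, hKo, ?_⟩
  have hopen : IsOpen (ψ.source ∩ ψ ⁻¹' ball 0 1) :=
    ψ.isOpen_inter_preimage isOpen_ball
  have hmem : x0 ∈ ψ.source ∩ ψ ⁻¹' ball 0 1 := ⟨hsrc, by simp [h0]⟩
  filter_upwards [hopen.mem_nhds hmem] with x hx k hk
  have h1 : (⟨k, hk⟩ : K) ∈ trivSub K (ψ.symm '' ball (0 : E n) 1) := by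
    rw [hD]; exact Subgroup.mem_top _
  exact h1 x ⟨ψ x, hx.2, ψ.left_inv hx.1⟩

theorem RegularOn.comap {G S : Type} [SMul G X] [SMul S X] {φ : OpenPartialHomeomorph X (E n)}
    {V : Set G} {k : Fin n} {T : Set (E n)} (h : RegularOn φ V k T) (ι : S → G)
    (hs : ∀ (s : S) (x : X), s • x = ι s • x) : RegularOn φ (ι ⁻¹' V) k T := by
  have tr : ∀ {l : Fin n} {a : ℝ}, EquiHolder φ V l a T → EquiHolder φ (ι ⁻¹' V) l a T := by
    rintro l a ⟨L, hL⟩
    refine ⟨L, fun s hs' v hv w hw => ?_⟩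
    rw [hs, hs]
    exact hL (ι s) hs' v hv w hw
  rcases h with h | ⟨a, b, ha, hb, hab, h1, h2⟩ | h
  · exact Or.inl fun j hj => tr (h j hj)
  · exact Or.inr (Or.inl ⟨a, b, ha, hb, hab, fun j hj => tr (h1 j hj), tr h2⟩)
  · refine Or.inr (Or.inr fun η hη => ?_)
    obtain ⟨N, Q, t, h1, h2, h3, h4⟩ := h η hη
    refine ⟨N, Q, t, h1, h2, h3, fun g hg i v hv w hw l hl => ?_⟩
    rw [hs, hs]
    exact h4 (ι g) hg i v hv w hw l hl

end

open Pool.Agent.W660.GY (NSS)

/-- No small subgroups. -/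
theorem nss_main {X : Type} [TopologicalSpace X] [T2Space X]
    {G : Type} [Group G] [TopologicalSpace G] [IsTopologicalGroup G] [LocallyCompactSpace G]
    [MulAction G X] [ContinuousSMul G X] [FaithfulSMul G X]
    (R : Set X) (hdense : Dense R) (hconn : IsPreconnected R)
    (hR : ∀ x ∈ R, ∃ (n : ℕ) (φ : OpenPartialHomeomorph X (E n)) (V : Set G),
      x ∈ φ.source ∧ V ∈ 𝓝 (1 : G) ∧ RegularAlong φ V (φ x)) : T2Space G ∧ NSS G := by
  have hT2 : T2Space G := by
    refine ⟨fun g h hgh => ?_⟩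
    obtain ⟨x, hx⟩ : ∃ x : X, g • x ≠ h • x := by
      by_contra hall
      push Not at hall
      exact hgh (eq_of_smul_eq_smul hall)
    obtain ⟨u, v, hu, hv, hgu, hhv, huv⟩ := t2_separation hx
    have hc : Continuous (fun g : G => g • x) := by fun_prop
    exact ⟨_, _, hu.preimage hc, hv.preimage hc, hgu, hhv, huv.preimage _⟩
  refine ⟨hT2, Pool.Agent.Y485.HS.nss_of_Z univ univ_mem ?_⟩
  intro S _ _ _ _ _ _ ι hι hinj _
  let _ : MulAction S X := MulAction.compHom X ι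
  have hs : ∀ (s : S) (x : X), s • x = ι s • x := fun _ _ => rfl
  have _ : ContinuousSMul S X := ⟨by
    have h : Continuous (fun q : S × X => ι q.1 • q.2) := by fun_prop
    exact h⟩
  obtain ⟨K, hKo, hKt⟩ := Pool.Agent.X169.HT.globalize (H := S) (X := X) R hdense hconn
    (fun x hx => by
      obtain ⟨n, φ, V, hφ, -⟩ := hR x hx
      exact ⟨n, φ, hφ⟩)
    (fun x hx => by
      obtain ⟨n, φ, V, hφ, hV, ρ, hρ, hb⟩ := hR x hx
      have hV' : ι ⁻¹' V ∈ 𝓝 (1 : S) := by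
        have h2 := hι.tendsto 1
        rw [map_one] at h2
        exact h2 hV
      refine loc φ hφ hV' ⟨ρ, hρ, fun k => ?_⟩
      obtain ⟨D, hD, hDr⟩ := hb k
      refine ⟨D, hD, fun r hr => ?_⟩
      filter_upwards [hDr r hr] with u hu
      exact hu.comap ι hs)
  have hbot : K = ⊥ := by
    rw [eq_bot_iff]
    intro k hk
    rw [Subgroup.mem_bot]
    apply hinj
    refine eq_of_smul_eq_smul (α := X) fun x => ?_
    rw [map_one, one_smul]
    exact hKt k hk x
  rw [hbot] at hKo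
  refine discreteTopology_of_isOpen_singleton_one ?_
  convert hKo using 1
  ext x
  simp

/-- The group is a Lie group. -/
theorem lie_main {X : Type} [TopologicalSpace X] [T2Space X]
    {G : Type} [Group G] [TopologicalSpace G] [IsTopologicalGroup G] [LocallyCompactSpace G]
    [MulAction G X] [ContinuousSMul G X] [FaithfulSMul G X]
    (R : Set X) (hdense : Dense R) (hconn : IsPreconnected R)
    (hR : ∀ x ∈ R, ∃ (n : ℕ) (φ : OpenPartialHomeomorph X (E n)) (V : Set G),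
      x ∈ φ.source ∧ V ∈ 𝓝 (1 : G) ∧ RegularAlong φ V (φ x)) :
    Pool.Agent.Y485.HS.IsLie G := by
  obtain ⟨hT, hN⟩ := nss_main R hdense hconn hR
  have := hT
  obtain ⟨E, i1, i2, i3, ⟨C⟩⟩ := Pool.Agent.Y328.HS.lga G hN
  let _ := i1
  let _ := i2
  have := i3
  exact Pool.Agent.Y286.HS.lgb G E C

end Pool.Agent.H751.HSF
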