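import Pool.Agent.H751.HSF.Tor

/-!
# The main theorem
-/

set_option autoImplicit false

open MeasureTheory Set Metric Filter Topology
open scoped ENNReal NNReal

namespace Pool.Agent.H751.HSF

open Pool.Agent.Y485.HS (E)
open Pool.Agent.W660.GY (NSS)

theorem RegularAlong.comap {n : ℕ} {X : Type} [TopologicalSpace X] {G S : Type} [SMul G X]
    [SMul S X] {φ : OpenPartialHomeomorph X (E n)} {V : Set G} {z : E n}
    (h : RegularAlong φ V z) (ι : S → G) (hs : ∀ (s : S) (x : X), s • x = ι s • x) :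
    RegularAlong φ (ι ⁻¹' V) z := by
  obtain ⟨ρ, hρ, hb⟩ := h
  refine ⟨ρ, hρ, fun k => ?_⟩
  obtain ⟨D, hD, hDr⟩ := hb k
  refine ⟨D, hD, fun r hr => ?_⟩
  filter_upwards [hDr r hr] with u hu
  exact hu.comap ι hs

/-- elements of prime power type have finite order -/
theorem fin_order {X : Type} [TopologicalSpace X] [T2Space X]
    {G : Type} [Group G] [TopologicalSpace G] [IsTopologicalGroup G] [T2Space G]
    [MulAction G X] [ContinuousSMul G X] [FaithfulSMul G X]
    (R : Set X) (hdense : Dense R) (hconn : IsPreconnected R)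
    (hR : ∀ x ∈ R, ∃ (n : ℕ) (φ : OpenPartialHomeomorph X (E n)), x ∈ φ.source)
    (hreg : ∀ (p : ℕ) (g : G), PAdic p g → ∀ x ∈ R,
      ∃ (n : ℕ) (φ : OpenPartialHomeomorph X (E n)) (V : Set G), x ∈ φ.source ∧ V ∈ 𝓝 (1 : G) ∧
        RegularAlong φ (V ∩ closure (Subgroup.zpowers g : Set G)) (φ x))
    {S : Type} [Group S] [TopologicalSpace S] [IsTopologicalGroup S] [CompactSpace S]
    [T2Space S] [TotallyDisconnectedSpace S] (ι : S →* G) (hι : Continuous ι)
    (hinj : Function.Injective ι) {p : ℕ} (hp : p.Prime) (s : S)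
    (hsp : Tendsto (fun j : ℕ => s ^ p ^ j) atTop (𝓝 1)) : ∃ m : ℕ, 0 < m ∧ s ^ m = 1 := by
  by_contra hcon
  push Not at hcon
  have hzp : (ι '' (Subgroup.zpowers s : Set S)) ⊆ (Subgroup.zpowers (ι s) : Set G) := by
    rintro _ ⟨_, ⟨m, rfl⟩, rfl⟩
    exact ⟨m, by simp⟩
  have hzp' : (Subgroup.zpowers (ι s) : Set G) ⊆ ι '' univ := by
    rintro _ ⟨m, rfl⟩
    exact ⟨s ^ m, mem_univ _, by simp⟩
  have hcomp : IsCompact (ι '' (univ : Set S)) := isCompact_univ.image hι
  have hPA : PAdic p (ι s) := by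
    refine ⟨hp, ?_, hcomp.closure_of_subset hzp', fun m hm h => ?_⟩
    · have h1 := (hι.tendsto 1).comp hsp
      rw [map_one] at h1
      simpa [Function.comp_def] using h1
    · refine hcon m hm (hinj ?_)
      rw [map_pow, h, map_one]
  -- the closure of the powers
  obtain ⟨P, hP⟩ : ∃ P : Subgroup S, P = (Subgroup.zpowers s).topologicalClosure := ⟨_, rfl⟩
  have hPc : IsClosed (P : Set S) := by
    rw [hP]
    exact Subgroup.isClosed_topologicalClosure _
  have hPcs : CompactSpace P := isCompact_iff_compactSpace.1 hPc.isCompact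
  have hsP : s ∈ P := by
    rw [hP]
    exact Subgroup.le_topologicalClosure _ (Subgroup.mem_zpowers s)
  let κ : P → G := fun q => ι (q : S)
  have hκ : Continuous κ := hι.comp continuous_subtype_val
  have hκP : ∀ q : P, κ q ∈ closure (Subgroup.zpowers (ι s) : Set G) := by
    intro q
    have h1 : (q : S) ∈ closure (Subgroup.zpowers s : Set S) := by
      rw [← Subgroup.topologicalClosure_coe, ← hP]
      exact q.2
    exact closure_mono hzp (image_closure_subset_closure_image hι (mem_image_of_mem ι h1))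
  let _ : MulAction S X := MulAction.compHom X ι
  have hs : ∀ (s : S) (x : X), s • x = ι s • x := fun _ _ => rfl
  have _ : ContinuousSMul S X := ⟨by
    have h : Continuous (fun q : S × X => ι q.1 • q.2) := by fun_prop
    exact h⟩
  obtain ⟨K, hKo, hKt⟩ := Pool.Agent.X169.HT.globalize (H := P) (X := X) R hdense hconn hR
    (fun x hx => by
      obtain ⟨n, φ, V, hφ, hV, h⟩ := hreg p (ι s) hPA x hx
      have hV' : κ ⁻¹' (V ∩ closure (Subgroup.zpowers (ι s) : Set G)) ∈ 𝓝 (1 : P) := by
        have h1 : κ ⁻¹' (V ∩ closure (Subgroup.zpowers (ι s) : Set G)) = κ ⁻¹' V := by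
          ext q
          exact ⟨fun h => h.1, fun h => ⟨h, hκP q⟩⟩
        rw [h1]
        have h2 := hκ.tendsto 1
        have h3 : κ 1 = 1 := map_one ι
        rw [h3] at h2
        exact h2 hV
      exact loc φ hφ hV' (h.comap κ fun q x => rfl))
  have hbot : K = ⊥ := by
    rw [eq_bot_iff]
    intro k hk
    rw [Subgroup.mem_bot]
    apply Subtype.ext
    apply hinj
    refine eq_of_smul_eq_smul (α := X) fun x => ?_
    rw [Subgroup.coe_one, map_one, one_smul]
    exact hKt k hk x
  rw [hbot] at hKo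
  have hdisc : DiscreteTopology P := by
    refine discreteTopology_of_isOpen_singleton_one ?_
    convert hKo using 1
    ext x
    simp
  have hfin : Finite P := finite_of_compact_of_discrete
  obtain ⟨m, hm, hsm⟩ := isOfFinOrder_iff_pow_eq_one.1 (isOfFinOrder_of_finite (⟨s, hsP⟩ : P))
  exact hcon m hm (congrArg Subtype.val hsm)

/-- No small subgroups. -/
theorem nss_padic {X : Type} [TopologicalSpace X] [T2Space X]
    {G : Type} [Group G] [TopologicalSpace G] [IsTopologicalGroup G] [LocallyCompactSpace G]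
    [MulAction G X] [ContinuousSMul G X] [FaithfulSMul G X]
    (R : Set X) (hdense : Dense R) (hconn : IsPreconnected R)
    (hR : ∀ x ∈ R, ∃ (n : ℕ) (φ : OpenPartialHomeomorph X (E n)), x ∈ φ.source)
    (hreg : ∀ (p : ℕ) (g : G), PAdic p g → ∀ x ∈ R,
      ∃ (n : ℕ) (φ : OpenPartialHomeomorph X (E n)) (V : Set G), x ∈ φ.source ∧ V ∈ 𝓝 (1 : G) ∧
        RegularAlong φ (V ∩ closure (Subgroup.zpowers g : Set G)) (φ x)) :
    T2Space G ∧ NSS G := by
  have hT2 : T2Space G := by
    refine ⟨fun g h hgh => ?_⟩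
    obtain ⟨x, hx⟩ : ∃ x : X, g • x ≠ h • x := by
      by_contra hall
      push Not at hall
      exact hgh (eq_of_smul_eq_smul hall)
    obtain ⟨u, v, hu, hv, hgu, hhv, huv⟩ := t2_separation hx
    have hc : Continuous (fun g : G => g • x) := by fun_prop
    exact ⟨_, _, hu.preimage hc, hv.preimage hc, hgu, hhv, huv.preimage _⟩
  refine ⟨hT2, Pool.Agent.Y485.HS.nss_of_Z univ univ_mem ?_⟩
  intro S _ _ _ _ _ _ ι hι hinj _
  let _ : MulAction S X := MulAction.compHom X ι
  have hs : ∀ (s : S) (x : X), s • x = ι s • x := fun _ _ => rfl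
  have _ : ContinuousSMul S X := ⟨by
    have h : Continuous (fun q : S × X => ι q.1 • q.2) := by fun_prop
    exact h⟩
  have hfaith : FaithfulSMul S X := ⟨fun {a b} h => hinj (eq_of_smul_eq_smul (α := X) h)⟩
  rcases isEmpty_or_nonempty X with hX | hX
  · have : Subsingleton S := ⟨fun a b => eq_of_smul_eq_smul (α := X) fun x => (hX.false x).elim⟩
    infer_instance
  obtain ⟨x0, hx0⟩ := hdense.nonempty
  obtain ⟨K, hKo, hK⟩ := no_torsion (S := S) R hdense hconn hR hx0
  have hKc : IsClosed (K : Set S) := Subgroup.isClosed_of_isOpen K hKo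
  have : CompactSpace K := isCompact_iff_compactSpace.1 hKc.isCompact
  have htop : (⊥ : Subgroup K) = ⊤ := by
    refine Pool.Agent.Y215.HS.syl K ⊥ (by simp) ?_
    intro p hp P hPc hPp k hk
    have : CompactSpace P := isCompact_iff_compactSpace.1 hPc.isCompact
    have h1 : Tendsto (fun j : ℕ => (⟨k, hk⟩ : P) ^ p ^ j) atTop (𝓝 1) :=
      Pool.Agent.Y340.SP.t_POW p hp P hPp ⟨k, hk⟩
    have hc : Continuous (fun q : P => ((q : K) : S)) :=
      continuous_subtype_val.comp continuous_subtype_val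
    have h2 : Tendsto (fun j : ℕ => (k : S) ^ p ^ j) atTop (𝓝 1) := by
      have h3 := (hc.tendsto 1).comp h1
      simpa [Function.comp_def] using h3
    rw [Subgroup.mem_bot]
    exact Subtype.ext (hK p hp k k.2 h2
      (fin_order R hdense hconn hR hreg ι hι hinj hp (k : S) h2))
  have hbot : K = ⊥ := by
    rw [eq_bot_iff]
    intro k hk
    have h1 : (⟨k, hk⟩ : K) ∈ (⊥ : Subgroup K) := by
      rw [htop]
      exact Subgroup.mem_top _
    rw [Subgroup.mem_bot] at h1 ⊢
    exact congrArg Subtype.val h1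
  rw [hbot] at hKo
  refine discreteTopology_of_isOpen_singleton_one ?_
  convert hKo using 1
  ext x
  simp

/-- The group is a Lie group. -/
theorem lie_padic {X : Type} [TopologicalSpace X] [T2Space X]
    {G : Type} [Group G] [TopologicalSpace G] [IsTopologicalGroup G] [LocallyCompactSpace G]
    [MulAction G X] [ContinuousSMul G X] [FaithfulSMul G X]
    (R : Set X) (hdense : Dense R) (hconn : IsPreconnected R)
    (hR : ∀ x ∈ R, ∃ (n : ℕ) (φ : OpenPartialHomeomorph X (E n)), x ∈ φ.source)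
    (hreg : ∀ (p : ℕ) (g : G), PAdic p g → ∀ x ∈ R,
      ∃ (n : ℕ) (φ : OpenPartialHomeomorph X (E n)) (V : Set G), x ∈ φ.source ∧ V ∈ 𝓝 (1 : G) ∧
        RegularAlong φ (V ∩ closure (Subgroup.zpowers g : Set G)) (φ x)) :
    Pool.Agent.Y485.HS.IsLie G := by
  obtain ⟨hT, hN⟩ := nss_padic R hdense hconn hR hreg
  have := hT
  obtain ⟨E, i1, i2, i3, ⟨C⟩⟩ := Pool.Agent.Y328.HS.lga G hN
  let _ := i1
  let _ := i2
  have := i3
  exact Pool.Agent.Y286.HS.lgb G E C

end Pool.Agent.H751.HSF
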