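import Pool.Agent.H751.HSF.Loc

/-!
# Elements of finite order and the reduction to elements of infinite order
-/

set_option autoImplicit false

open MeasureTheory Set Metric Filter Topology
open scoped ENNReal NNReal

namespace Pool.Agent.H751.HSF

open Pool.Agent.Y485.HS Pool.Agent.Y489.SP Pool.Agent.Y475.HS
open Pool.Agent.R775.HS (trivSub isClosed_triv)
open Pool.Agent.X169.HT (CAct centre pow_mod_smul)

section
variable {n : ℕ} {X : Type} [TopologicalSpace X]

/-- an element of order `p` and small displacement fixes the centre of the ball -/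
theorem fix_centre {H : Type} [Group H] [MulAction H X] [ContinuousConstSMul H X]
    (φ : OpenPartialHomeomorph X (E n)) {p : ℕ} (hp : p.Prime) (h : H) (hh : h ^ p = 1) (z : E n)
    {r : ℝ} (hr : 0 < r) (ht : closedBall z (4 * r) ⊆ φ.target)
    (hs : ∀ i : ℕ, ∀ v ∈ closedBall z (4 * r), h ^ i • φ.symm v ∈ φ.source ∧
      dist (φ (h ^ i • φ.symm v)) v ≤ r / 4) : φ (h • φ.symm z) = z := by
  rcases Nat.eq_zero_or_pos n with hn | hn
  · subst hn
    exact Subsingleton.elim _ _
  have : Fact p.Prime := ⟨hp⟩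
  have hB : ∀ x ∈ BB n, r • x + z ∈ closedBall z (4 * r) := by
    intro x hx
    rw [mem_closedBall, dist_eq_norm, add_sub_cancel_right, norm_smul, Real.norm_of_nonneg hr.le]
    have := mem_BB.1 hx
    nlinarith
  have hper : ∀ (u : X) (a : ℕ), h ^ a • u = h ^ (a % p) • u := fun u a =>
    pow_mod_smul h u p (by rw [hh, one_smul]) a
  let U : ZMod p → E n → E n := fun i x => r⁻¹ • (φ (h ^ (ZMod.val i) • φ.symm (r • x + z)) - z)
  have hU : CAct p n U := by
    refine ⟨fun i => ?_, fun x hx => ?_, fun i j x hx => ?_, fun i x hx => ?_⟩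
    · have h1 : ContinuousOn (fun x : E n => r • x + z) (BB n) := by fun_prop
      have h2 : ContinuousOn (fun x : E n => φ.symm (r • x + z)) (BB n) :=
        φ.continuousOn_symm.comp h1 fun x hx => ht (hB x hx)
      have h3 : ContinuousOn (fun x : E n => h ^ (ZMod.val i) • φ.symm (r • x + z)) (BB n) :=
        h2.const_smul _
      have h4 := φ.continuousOn.comp h3 fun x hx => (hs _ _ (hB x hx)).1
      exact (h4.sub (continuousOn_const (c := z))).const_smul r⁻¹
    · show r⁻¹ • (φ (h ^ (ZMod.val (0 : ZMod p)) • φ.symm (r • x + z)) - z) = x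
      rw [ZMod.val_zero, pow_zero, one_smul, φ.right_inv (ht (hB x hx)), add_sub_cancel_right,
        smul_smul, inv_mul_cancel₀ hr.ne', one_smul]
    · have hxB : x ∈ BB n := closedBall_subset_closedBall (by norm_num) hx
      show r⁻¹ • (φ (h ^ (ZMod.val (i + j)) • φ.symm (r • x + z)) - z) =
        r⁻¹ • (φ (h ^ (ZMod.val i) • φ.symm (r • (r⁻¹ • (φ (h ^ (ZMod.val j) •
          φ.symm (r • x + z)) - z)) + z)) - z)
      rw [smul_smul, mul_inv_cancel₀ hr.ne', one_smul, sub_add_cancel,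
        φ.left_inv (hs _ _ (hB x hxB)).1, ← mul_smul, ← pow_add, ZMod.val_add, ← hper]
    · show dist (r⁻¹ • (φ (h ^ (ZMod.val i) • φ.symm (r • x + z)) - z)) x ≤ 1 / 4
      have h1 := (hs (ZMod.val i) _ (hB x hx)).2
      have h2 : r⁻¹ • (φ (h ^ (ZMod.val i) • φ.symm (r • x + z)) - z) - x =
          r⁻¹ • (φ (h ^ (ZMod.val i) • φ.symm (r • x + z)) - (r • x + z)) := by
        rw [sub_add_eq_sub_sub_swap, smul_sub r⁻¹ (_ - z) (r • x), smul_smul,
          inv_mul_cancel₀ hr.ne', one_smul]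
      rw [dist_eq_norm, h2, norm_smul, norm_inv, Real.norm_of_nonneg hr.le, ← dist_eq_norm]
      calc r⁻¹ * dist _ _ ≤ r⁻¹ * (r / 4) := by gcongr
        _ = 1 / 4 := by field_simp
  have h0 := centre hn hU
  have h1 : r⁻¹ • (φ (h ^ (ZMod.val (1 : ZMod p)) • φ.symm (r • (0 : E n) + z)) - z) = 0 := h0
  rw [ZMod.val_one'' hp.one_lt.ne', pow_one, smul_zero, zero_add,
    smul_eq_zero_iff_right (inv_ne_zero hr.ne'), sub_eq_zero] at h1
  exact h1

/-- small open subgroups -/
theorem exists_small' {S : Type} [Group S] [TopologicalSpace S] [IsTopologicalGroup S]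
    [CompactSpace S] [T2Space S] [TotallyDisconnectedSpace S] [MulAction S X]
    [ContinuousSMul S X] (φ : OpenPartialHomeomorph X (E n)) (z : E n) {A B : ℝ} (hB : 0 < B)
    (htgt : closedBall z A ⊆ φ.target) :
    ∃ K : Subgroup S, IsOpen (K : Set S) ∧ ∀ h ∈ K, ∀ v ∈ closedBall z A,
      h • φ.symm v ∈ φ.source ∧ dist (φ (h • φ.symm v)) v ≤ B := by
  have key : ∀ᶠ h : S in 𝓝 1, ∀ v ∈ closedBall z A,
      h • φ.symm v ∈ φ.source ∧ dist (φ (h • φ.symm v)) v ≤ B := by
    apply (isCompact_closedBall z A).eventually_forall_of_forall_eventually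
    intro v hv
    have hvt := htgt hv
    have h1 : ContinuousAt (fun z : S × E n => z.1 • φ.symm z.2) (1, v) := by
      refine ContinuousAt.smul continuousAt_fst ?_
      exact ContinuousAt.comp (f := fun z : S × E n => z.2) (x := ((1 : S), v))
        (φ.continuousAt_symm hvt) continuousAt_snd
    have hs1 : (1 : S) • φ.symm v ∈ φ.source := by rw [one_smul]; exact φ.map_target hvt
    have h2 : ContinuousAt φ ((1 : S) • φ.symm v) := φ.continuousAt hs1
    have h3 : ContinuousAt (fun z : S × E n => φ (z.1 • φ.symm z.2)) (1, v) :=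
      ContinuousAt.comp (f := fun z : S × E n => z.1 • φ.symm z.2) (x := ((1 : S), v)) h2 h1
    have h5 : Tendsto (fun z : S × E n => dist (φ (z.1 • φ.symm z.2)) z.2) (𝓝 (1, v)) (𝓝 0) := by
      have h6 : Tendsto (fun z : S × E n => dist (φ (z.1 • φ.symm z.2)) z.2) (𝓝 (1, v))
        (𝓝 (dist (φ ((1 : S) • φ.symm v)) v)) := h3.dist continuousAt_snd
      have h7 : dist (φ ((1 : S) • φ.symm v)) v = 0 := by
        rw [one_smul, φ.right_inv hvt, dist_self]
      rwa [h7] at h6
    have h8 : ∀ᶠ z : S × E n in 𝓝 (1, v), z.1 • φ.symm z.2 ∈ φ.source :=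
      h1.eventually_mem (φ.open_source.mem_nhds hs1)
    filter_upwards [h8, h5.eventually (gt_mem_nhds hB)] with z hz1 hz2
    exact ⟨hz1, hz2.le⟩
  obtain ⟨V, hV, hVo, hV1⟩ := eventually_nhds_iff.1 key
  obtain ⟨N, hN⟩ := ProfiniteGrp.exist_openNormalSubgroup_sub_open_nhds_of_one hVo hV1
  exact ⟨N.toSubgroup, N.isOpen, fun h hh v hv => hV h (hN hh) v hv⟩

/-- a compact group which acts trivially near one point of `R`, and near each point of `R` through a
finite group, acts trivially -/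
theorem globalize' [T2Space X] {K : Type} [Group K]
    [TopologicalSpace K] [IsTopologicalGroup K] [CompactSpace K] [MulAction K X]
    [ContinuousSMul K X] (R : Set X) (hdense : Dense R) (hconn : IsPreconnected R)
    (hR : ∀ x ∈ R, ∃ (n : ℕ) (φ : OpenPartialHomeomorph X (E n)), x ∈ φ.source)
    (hloc : ∀ x ∈ R, ∃ K1 : Subgroup K, IsOpen (K1 : Set K) ∧ ∀ᶠ y in 𝓝 x, ∀ k ∈ K1, k • y = y)
    {x0 : X} (hx0 : x0 ∈ R) (hKt : ∀ᶠ y in 𝓝 x0, ∀ k : K, k • y = y) :
    ∀ (k : K) (x : X), k • x = x := by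
  let Z : Set X := {x | ∀ᶠ y in 𝓝 x, ∀ q : K, q • y = y}
  have hZo : IsOpen Z := by
    rw [isOpen_iff_mem_nhds]
    intro x hx
    exact eventually_eventually_nhds.2 hx
  have hsub : R ⊆ Z := by
    refine hconn.subset_of_closure_inter_subset hZo ⟨x0, hx0, hKt⟩ ?_
    rintro x ⟨hxZ, hxR⟩
    obtain ⟨n, φ, hφ⟩ := hR x hxR
    obtain ⟨K', hK'o, hK't⟩ := hloc x hxR
    refine Pool.Agent.X169.HT.newman φ (K := K) x hφ K' hK'o hK't ?_
    intro V hV
    obtain ⟨a, haV, haZ⟩ := mem_closure_iff_nhds.1 hxZ V hV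
    exact ⟨a, haV, haZ⟩
  intro k x
  have hcl : IsClosed {x : X | k • x = x} :=
    isClosed_eq (continuous_const_smul k) continuous_id
  have h2 : R ⊆ {x : X | k • x = x} := by
    intro y hy
    exact (hsub hy).self_of_nhds k
  have h3 := hcl.closure_subset_iff.2 h2
  rw [hdense.closure_eq] at h3
  exact h3 (mem_univ x)

/-- an element of finite order which fixes a neighbourhood of a point acts trivially -/
theorem fin_triv [T2Space X] {S : Type} [Group S] [TopologicalSpace S] [IsTopologicalGroup S]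
    [T2Space S] [MulAction S X] [ContinuousSMul S X] (R : Set X)
    (hdense : Dense R) (hconn : IsPreconnected R)
    (hR : ∀ x ∈ R, ∃ (n : ℕ) (φ : OpenPartialHomeomorph X (E n)), x ∈ φ.source)
    {x0 : X} (hx0 : x0 ∈ R) {h : S} {m : ℕ} (hm : 0 < m) (hh : h ^ m = 1)
    (hloc : ∀ᶠ y in 𝓝 x0, h • y = y) (x : X) : h • x = x := by
  have hfo : IsOfFinOrder h := isOfFinOrder_iff_pow_eq_one.2 ⟨m, hm, hh⟩
  have hfin : Finite (Subgroup.zpowers h) := (IsOfFinOrder.finite_zpowers hfo).to_subtype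
  have hcomp : CompactSpace (Subgroup.zpowers h) := Finite.compactSpace
  have hdisc : DiscreteTopology (Subgroup.zpowers h) := inferInstance
  refine globalize' (K := Subgroup.zpowers h) R hdense hconn hR (fun x _ => ⟨⊥, isOpen_discrete _,
    Eventually.of_forall fun y k hk => by rw [Subgroup.mem_bot.1 hk, one_smul]⟩) hx0 ?_
    ⟨h, Subgroup.mem_zpowers h⟩ x
  filter_upwards [hloc] with y hy
  rintro ⟨_, i, rfl⟩
  show h ^ i • y = y
  have h1 : ∀ j : ℕ, h ^ j • y = y := by
    intro j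
    induction j with
    | zero => simp
    | succ j ih => rw [pow_succ, mul_smul, hy, ih]
  obtain ⟨j, rfl | rfl⟩ := i.eq_nat_or_neg
  · rw [zpow_natCast]
    exact h1 j
  · rw [zpow_neg, zpow_natCast, inv_smul_eq_iff]
    exact (h1 j).symm

/-- the small elements of finite order -/
theorem no_torsion [T2Space X] {S : Type} [Group S] [TopologicalSpace S] [IsTopologicalGroup S]
    [CompactSpace S] [T2Space S] [TotallyDisconnectedSpace S] [MulAction S X]
    [ContinuousSMul S X] [FaithfulSMul S X] (R : Set X)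
    (hdense : Dense R) (hconn : IsPreconnected R)
    (hR : ∀ x ∈ R, ∃ (n : ℕ) (φ : OpenPartialHomeomorph X (E n)), x ∈ φ.source)
    {x0 : X} (hx0 : x0 ∈ R) :
    ∃ K : Subgroup S, IsOpen (K : Set S) ∧ ∀ p : ℕ, p.Prime → ∀ s ∈ K,
      Tendsto (fun j : ℕ => s ^ p ^ j) atTop (𝓝 1) → (∃ m : ℕ, 0 < m ∧ s ^ m = 1) → s = 1 := by
  obtain ⟨n, φ, hφ⟩ := hR x0 hx0
  obtain ⟨A, hA, hball⟩ : ∃ A : ℝ, 0 < A ∧ closedBall (φ x0) A ⊆ φ.target :=
    Metric.nhds_basis_closedBall.mem_iff.1 (φ.open_target.mem_nhds (φ.map_source hφ))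
  obtain ⟨K, hKo, hK⟩ := exists_small' (S := S) φ (φ x0) (B := A / 20) (by positivity) hball
  refine ⟨K, hKo, fun p hp s hs hsp hfin => ?_⟩
  -- elements of order `p`
  have hord : ∀ h ∈ K, h ^ p = 1 → h = 1 := by
    intro h hh hhp
    refine eq_of_smul_eq_smul (α := X) fun x => ?_
    rw [one_smul]
    refine fin_triv R hdense hconn hR hx0 hp.pos hhp ?_ x
    have hopen : IsOpen (φ.source ∩ φ ⁻¹' ball (φ x0) (A / 5)) :=
      φ.isOpen_inter_preimage isOpen_ball
    have hmem : x0 ∈ φ.source ∩ φ ⁻¹' ball (φ x0) (A / 5) :=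
      ⟨hφ, mem_ball_self (by positivity)⟩
    filter_upwards [hopen.mem_nhds hmem] with y hy
    have hsub : closedBall (φ y) (4 * (A / 5)) ⊆ closedBall (φ x0) A := by
      refine closedBall_subset_closedBall' ?_
      have h1 : dist (φ y) (φ x0) < A / 5 := hy.2
      linarith
    have h1 := fix_centre φ hp h hhp (φ y) (r := A / 5) (by positivity) (hsub.trans hball)
      (fun i v hv => by
        have h2 := hK (h ^ i) (K.pow_mem hh i) v (hsub hv)
        exact ⟨h2.1, h2.2.trans (by linarith)⟩)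
    have h3 := (hK h hh (φ y) (hsub (mem_closedBall_self (by positivity)))).1
    rw [φ.left_inv hy.1] at h1 h3
    exact φ.injOn h3 hy.1 h1
  -- some power `s ^ p ^ j` is trivial
  obtain ⟨m, hm, hsm⟩ := hfin
  have hfo : IsOfFinOrder s := isOfFinOrder_iff_pow_eq_one.2 ⟨m, hm, hsm⟩
  have hev : ∃ j : ℕ, s ^ p ^ j = 1 := by
    have hf : Set.Finite ((Subgroup.zpowers s : Set S) \ {1}) :=
      (IsOfFinOrder.finite_zpowers hfo).subset sdiff_subset
    have h1 : ((Subgroup.zpowers s : Set S) \ {1})ᶜ ∈ 𝓝 (1 : S) :=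
      hf.isClosed.isOpen_compl.mem_nhds fun h => h.2 rfl
    obtain ⟨j, hj⟩ := (hsp.eventually h1).exists
    refine ⟨j, ?_⟩
    by_contra hne
    exact hj ⟨Subgroup.pow_mem _ (Subgroup.mem_zpowers s) _, hne⟩
  obtain ⟨j, hj⟩ := hev
  induction j with
  | zero => simpa using hj
  | succ j ih =>
    refine ih (hord _ (K.pow_mem hs _) ?_)
    rw [← pow_mul, ← pow_succ]
    exact hj

end

end Pool.Agent.H751.HSF
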